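import Pool.Agent.Run7.h707.TH.Crt
import Pool.Agent.Run7.h707.TF.Ferm

/-!
# The law in `ℤ[ω]`
-/

set_option autoImplicit false
set_option linter.unusedSectionVars false
set_option linter.unusedVariables false

open scoped Classical

namespace Run7.h707.TH

open Finset Filter NumberField
open Pool.Agent.Y692.QS (Ei w nr)
open Pool.Agent.Y703.XK (c9)
open Pool.Agent.Y696.CTK (Tri)
open Run7.h707.TC (FamU FamO ExO NEc dlt UC famO_iff exO_iff tuple_ncard)
open Pool.Agent.N883.FF (cube_one)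
open Run7.h707.TE (dO UO AllO bp ne_of_famO bp_ne)
open Run7.h707.TF (kapX law_X IX Rx reps Nm1 bp_mul cube_div ex_sys rx_refl rx_symm kapX_pos
  ferm_one isCl_ex IsCl isCl_one)

/-- the field `ℚ(√-3)` -/
abbrev Q3 : Type := CyclotomicField 3 ℚ

instance : IsCyclotomicExtension {3} ℚ Q3 := by
  have : NeZero ((3 : ℕ) : ℚ) := ⟨by norm_num⟩
  exact CyclotomicField.isCyclotomicExtension 3 ℚ

/-! ### The number of the classes -/

section card

variable {K : Type} [Field K] [NumberField K] {s m : ℕ}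

theorem rx_one {d : Fin s → 𝓞 K} (hd : ∀ i, d i ≠ 0)
    (hind : ∀ μ : Fin s → ZMod 3, μ ≠ 0 → ∀ y : 𝓞 K, y ^ 3 ≠ bp d μ) (t t' : IX Unit s m) :
    Rx (fun _ : Unit => (1 : 𝓞 K)) d t t' ↔ ∃ e : ℕ, (e = 1 ∨ e = 2) ∧
      (∀ k, t.2.2.1 k + e * t'.2.2.1 k = 0) ∧ ∀ i, t.2.1 i + e * t'.2.1 i = 0 := by
  unfold Rx
  refine exists_congr fun e => and_congr_right fun he => and_congr_right fun _ => ?_
  obtain ⟨y, hy, h⟩ := bp_mul hd t.2.1 t'.2.1 e
  rw [one_mul, one_mul, h]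
  constructor
  · rintro ⟨x, hx⟩
    by_contra hcon
    refine cube_div (x := x) hy hx.symm (fun u => hind _ (fun h0 => hcon fun i => ?_) u)
    exact congrFun h0 i
  · intro h0
    refine ⟨y, ?_⟩
    have h1 : (fun i => t.2.1 i + e * t'.2.1 i) = 0 := funext h0
    rw [h1]
    have h2 : bp d (0 : Fin s → ZMod 3) = 1 := by
      unfold bp
      simp
    rw [h2, one_mul]

theorem card_gen {d : Fin s → 𝓞 K} (hd : ∀ i, d i ≠ 0)
    (hind : ∀ μ : Fin s → ZMod 3, μ ≠ 0 → ∀ y : 𝓞 K, y ^ 3 ≠ bp d μ)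
    {R : Finset (IX Unit s m)}
    (hR : ∀ t ∈ R, ∀ t' ∈ R, t ≠ t' → ¬ Rx (fun _ : Unit => (1 : 𝓞 K)) d t t')
    (hR' : ∀ t, ∃ t' ∈ R, Rx (fun _ : Unit => (1 : 𝓞 K)) d t t') :
    2 * R.card = 3 ^ s * (3 ^ m - 1) := by
  simp only [rx_one hd hind] at hR hR'
  have h1 : (R ×ˢ (univ : Finset (Fin 2))).card =
      ((univ : Finset (Fin s → ZMod 3)) ×ˢ
        (univ.filter fun ν : Fin m → ZMod 3 => ν ≠ 0)).card := by
    refine card_bij (fun q _ => if q.2 = 0 then (q.1.2.1, q.1.2.2.1)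
      else (-q.1.2.1, -q.1.2.2.1)) ?_ ?_ ?_
    · intro q _
      rw [mem_product, mem_filter]
      refine ⟨mem_univ _, mem_univ _, ?_⟩
      split_ifs
      · exact q.1.2.2.2
      · exact neg_ne_zero.2 q.1.2.2.2
    · intro q hq q' hq' h
      have hqR := (mem_product.1 hq).1
      have hqR' := (mem_product.1 hq').1
      have e1 : ∀ (n : ℕ) (a b : Fin n → ZMod 3), a = b → ∀ k, a k + (2 : ℕ) * b k = 0 := by
        rintro n a b rfl k
        have : ∀ x : ZMod 3, x + (2 : ℕ) * x = 0 := by decide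
        exact this _
      have e2 : ∀ (n : ℕ) (a b : Fin n → ZMod 3), a = -b → ∀ k, a k + (1 : ℕ) * b k = 0 := by
        rintro n a b rfl k
        rw [Pi.neg_apply]
        have : ∀ x : ZMod 3, -x + (1 : ℕ) * x = 0 := by decide
        exact this _
      have h11 : q.1 = q'.1 := by
        by_contra hne
        refine hR _ hqR _ hqR' hne ?_
        split_ifs at h with h3 h4 h4
        · obtain ⟨ha, hb⟩ := Prod.ext_iff.1 h
          exact ⟨2, Or.inr rfl, e1 _ _ _ hb, e1 _ _ _ ha⟩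
        · obtain ⟨ha, hb⟩ := Prod.ext_iff.1 h
          exact ⟨1, Or.inl rfl, e2 _ _ _ hb, e2 _ _ _ ha⟩
        · obtain ⟨ha, hb⟩ := Prod.ext_iff.1 h
          have ha' : -q.1.2.1 = q'.1.2.1 := ha
          have hb' : -(q.1.2.2.1) = q'.1.2.2.1 := hb
          exact ⟨1, Or.inl rfl, e2 _ _ _ (by rw [← hb', neg_neg]),
            e2 _ _ _ (by rw [← ha', neg_neg])⟩
        · obtain ⟨ha, hb⟩ := Prod.ext_iff.1 h
          exact ⟨2, Or.inr rfl, e1 _ _ _ (neg_injective hb), e1 _ _ _ (neg_injective ha)⟩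
      refine Prod.ext h11 ?_
      rw [h11] at h
      have hne2 : q'.1.2.2.1 ≠ -q'.1.2.2.1 := by
        intro h5
        apply q'.1.2.2.2
        funext k
        have h6 := congrFun h5 k
        rw [Pi.neg_apply] at h6
        have : ∀ x : ZMod 3, x = -x → x = 0 := by decide
        exact this _ h6
      have hf : ∀ x : Fin 2, x ≠ 0 → x = 1 := by decide
      split_ifs at h with h3 h4 h4
      · rw [h3, h4]
      · exact absurd (Prod.ext_iff.1 h).2 hne2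
      · exact absurd (Prod.ext_iff.1 h).2.symm hne2
      · rw [hf _ h3, hf _ h4]
    · rintro ⟨μ, ν⟩ hν
      rw [mem_product, mem_filter] at hν
      have hν' : ν ≠ 0 := hν.2.2
      obtain ⟨t', ht', e, he, hk, hk'⟩ := hR' ((), μ, ⟨ν, hν'⟩)
      rcases he with rfl | rfl
      · refine ⟨(t', 1), mem_product.2 ⟨ht', mem_univ _⟩, ?_⟩
        have h7 : ¬ ((t', (1 : Fin 2)).2 = 0) := by
          intro h8
          exact absurd (show (1 : Fin 2) = 0 from h8) (by decide)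
        rw [if_neg h7]
        have h5 : ∀ x y : ZMod 3, x + (1 : ℕ) * y = 0 → -y = x := by decide
        refine Prod.ext ?_ ?_
        · funext k
          exact h5 _ _ (hk' k)
        · funext k
          exact h5 _ _ (hk k)
      · refine ⟨(t', 0), mem_product.2 ⟨ht', mem_univ _⟩, ?_⟩
        rw [if_pos rfl]
        have h5 : ∀ x y : ZMod 3, x + (2 : ℕ) * y = 0 → y = x := by decide
        refine Prod.ext ?_ ?_
        · funext k
          exact h5 _ _ (hk' k)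
        · funext k
          exact h5 _ _ (hk k)
  rw [card_product, card_univ, Fintype.card_fin, card_product] at h1
  have h2 : (univ.filter fun ν : Fin m → ZMod 3 => ν ≠ 0).card = 3 ^ m - 1 := by
    rw [filter_ne', card_erase_of_mem (mem_univ _), card_univ, Fintype.card_fun, ZMod.card,
      Fintype.card_fin]
  rw [h2, card_univ, Fintype.card_fun, ZMod.card, Fintype.card_fin] at h1
  omega

end card

/-! ### The definitions in `ℤ[ω]` -/

/-- cube-free and congruent to a third root of unity modulo `3` -/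
def FamE (a : Ei) : Prop :=
  (∀ x : Ei, x ^ 3 ∣ a → IsUnit x) ∧ ∃ ω : Ei, ω ^ 3 = 1 ∧ (3 : Ei) ∣ a - ω

/-- exceptional elements -/
def ExE (δ : Ei) : Prop :=
  (∃ u x : Ei, IsUnit u ∧ δ = u * x ^ 3) ∨ ((3 : Ei) ∣ δ - 1 ∧ (9 : ℤ) ∣ nr δ - 1)

/-- monomials -/
def bE {n : ℕ} (b : Fin n → Ei) (ν : Fin n → ZMod 3) : Ei := ∏ i, b i ^ (ν i).val

/-- the family -/
def InE {s m : ℕ} (b : Fin s → Ei) (a : Fin m → Ei) : Prop :=
  ∀ (μ : Fin s → ZMod 3) (ν : Fin m → ZMod 3), ν ≠ 0 → ¬ ExE (bE b μ * bE a ν)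

/-- the representatives -/
def nineE : Set Ei := {x | ∃ (ω : Ei) (k : ℕ), ω ^ 3 = 1 ∧ k < 3 ∧ x = ω * (1 + 3 * k)}

/-- the density of the family -/
noncomputable def kE {s : ℕ} (b : Fin s → Ei) (m : ℕ) : ℝ :=
  ({u : Fin m → Ei | (∀ k, u k ∈ nineE) ∧ ∀ (μ : Fin s → ZMod 3) (ν : Fin m → ZMod 3), ν ≠ 0 →
    ¬ ((3 : Ei) ∣ bE b μ * bE u ν - 1 ∧ (9 : ℤ) ∣ nr (bE b μ * bE u ν) - 1)}.ncard : ℝ) / 9 ^ m

section transfer

variable {K : Type} [Field K] [NumberField K] (j : Ei ≃+* 𝓞 K)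
  (hj : ∀ z : Ei, Algebra.norm ℤ (j z) = nr z)

theorem famE_iff (a : Ei) : FamO (j a) ↔ FamE a := by
  rw [famO_iff]
  unfold FamU FamE
  refine and_congr_right fun _ => ?_
  constructor
  · rintro ⟨i, h⟩
    refine ⟨w ^ i.val, ?_, h⟩
    rw [← pow_mul, mul_comm, pow_mul, Pool.Agent.Y692.QS.w_cube, one_pow]
  · rintro ⟨ω, h1, h2⟩
    obtain ⟨i, rfl⟩ := cube_one h1
    exact ⟨i, h2⟩

theorem famU_iff (a : Ei) : FamU a ↔ FamE a := by
  unfold FamU FamE
  refine and_congr_right fun _ => ?_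
  constructor
  · rintro ⟨i, h⟩
    refine ⟨w ^ i.val, ?_, h⟩
    rw [← pow_mul, mul_comm, pow_mul, Pool.Agent.Y692.QS.w_cube, one_pow]
  · rintro ⟨ω, h1, h2⟩
    obtain ⟨i, rfl⟩ := cube_one h1
    exact ⟨i, h2⟩

include hj in
theorem exE_iff (x : Ei) : ExO (j x) ↔ ExE x := by
  rw [← not_iff_not, exO_iff j hj]
  unfold NEc UC ExE
  rw [not_or]

theorem bp_bE {n : ℕ} (b : Fin n → Ei) (ν : Fin n → ZMod 3) :
    bp (fun i => j (b i)) ν = j (bE b ν) := by
  unfold bp bE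
  rw [map_prod]
  exact Finset.prod_congr rfl fun i _ => (map_pow j _ _).symm

include hj in
theorem kap_eq {s : ℕ} (b : Fin s → Ei) (m : ℕ) :
    kapX (fun _ : Unit => (1 : 𝓞 K)) (fun i => j (b i)) m = kE b m := by
  unfold kapX kE
  rw [tuple_ncard j]
  congr 3
  ext u
  simp only [Set.mem_ofPred_eq]
  refine and_congr (forall_congr' fun k => ?_) ?_
  · unfold reps nineE
    simp only [Set.mem_ofPred_eq]
    constructor
    · rintro ⟨ω, n, h1, h2, h3⟩
      obtain ⟨ω, rfl⟩ := j.surjective ω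
      refine ⟨ω, n, j.injective (by rw [map_pow, h1, map_one]), h2, j.injective ?_⟩
      rw [h3, map_mul, map_add, map_one, map_mul, map_ofNat, map_natCast]
    · rintro ⟨ω, n, h1, h2, h3⟩
      refine ⟨j ω, n, by rw [← map_pow, h1, map_one], h2, ?_⟩
      rw [h3, map_mul, map_add, map_one, map_mul, map_ofNat, map_natCast]
  · constructor
    · intro h μ ν hν h1
      refine h () μ ν hν ?_
      unfold Nm1
      rw [one_mul, bp_bE, bp_bE, ← map_mul, hj, ← map_one j, ← map_sub, ← map_ofNat j 3,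
        map_dvd_iff j]
      exact h1
    · intro h _ μ ν hν h1
      refine h μ ν hν ?_
      unfold Nm1 at h1
      rw [one_mul, bp_bE, bp_bE, ← map_mul, hj, ← map_one j, ← map_sub, ← map_ofNat j 3,
        map_dvd_iff j] at h1
      exact h1

/-- the criterion for the monomials of the family -/
theorem gx_mon {s m : ℕ} {b : Fin s → Ei} {a : Fin m → Ei} (hb : ∀ i, FamE (b i))
    (ha : ∀ k, FamE (a k)) {μ : Fin s → ZMod 3} {ν : Fin m → ZMod 3}
    (hn : ¬ ExE (bE b μ * bE a ν)) :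
    Gx (bE b μ * bE a ν) ↔ Tri (j (bE b μ * bE a ν)) := by
  have e : bE b μ * bE a ν = dlt (Fin.append (fun i => (μ i).val) fun k => (ν k).val)
      (Fin.append b a) := by
    unfold dlt bE
    rw [Fin.prod_univ_add]
    simp only [Fin.append_left, Fin.append_right]
  rw [e] at hn ⊢
  refine gx_tri j _ (fun k => ?_) ?_
  · rw [famU_iff]
    exact Run7.h707.TF.append_all (P := FamE) hb ha k
  · unfold ExE at hn
    rw [not_or] at hn
    exact hn

end transfer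

/-- **The law.** -/
theorem law_E {s : ℕ} {b : Fin s → Ei} (hb : ∀ i, FamE (b i))
    (hind : ∀ μ : Fin s → ZMod 3, μ ≠ 0 → ∀ y : Ei, y ^ 3 ≠ bE b μ) (m : ℕ) :
    ((∃ a : Fin m → Ei, (∀ k, FamE (a k)) ∧ InE b a) → 0 < kE b m) ∧
    (∃ c : ℝ, 0 < c ∧ ∃ X₀ : ℕ, ∀ X : ℕ, X₀ ≤ X → c * (X : ℝ) ^ m ≤
      ({a : Fin m → Ei | ∀ k, nr (a k) ≤ X ∧ FamE (a k)}.ncard : ℝ)) ∧
    Tendsto (fun X : ℕ => ({a : Fin m → Ei | (∀ k, nr (a k) ≤ X ∧ FamE (a k)) ∧
      InE b a}.ncard : ℝ) / ({a : Fin m → Ei | ∀ k, nr (a k) ≤ X ∧ FamE (a k)}.ncard : ℝ)) atTop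
      (nhds (kE b m)) ∧
    Tendsto (fun X : ℕ => ({a : Fin m → Ei | (∀ k, nr (a k) ≤ X ∧ FamE (a k)) ∧
      (InE b a ∧ ∀ (μ : Fin s → ZMod 3) (ν : Fin m → ZMod 3), ν ≠ 0 →
        Gx (bE b μ * bE a ν))}.ncard : ℝ) /
      ({a : Fin m → Ei | ∀ k, nr (a k) ≤ X ∧ FamE (a k)}.ncard : ℝ)) atTop
      (nhds (kE b m * (∏' i : ℕ, (1 - (1 / 3 : ℝ) ^ (2 * i + 1))) ^ (3 ^ s * (3 ^ m - 1) / 2))) := by
  obtain ⟨⟨j, hj⟩, -⟩ := Pool.Agent.Y455.CTK.jex Q3
  have hd : ∀ i, FamO (j (b i)) := fun i => (famE_iff j _).2 (hb i)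
  have hd0 : ∀ i, j (b i) ≠ 0 := fun i => ne_of_famO (hd i)
  have hind' : ∀ μ : Fin s → ZMod 3, μ ≠ 0 →
      ∀ y : 𝓞 Q3, y ^ 3 ≠ bp (fun i => j (b i)) μ := by
    intro μ hμ y hy
    obtain ⟨y, rfl⟩ := j.surjective y
    rw [bp_bE, ← map_pow] at hy
    exact hind μ hμ y (j.injective hy)
  have hC : ∀ n : Fin 0 → ℕ, dO n (Fin.elim0 : Fin 0 → 𝓞 Q3) = 1 := by
    intro n
    unfold dO
    simp
  have hC' : (fun t : Unit => dO ((fun (_ : Unit) (_ : Fin 0) => (0 : ℕ)) t)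
      (Fin.elim0 : Fin 0 → 𝓞 Q3)) = fun _ => 1 := funext fun t => hC _
  obtain ⟨R, hR, hR'⟩ := ex_sys (Rx (s := s) (r := m)
    (fun _ : Unit => (1 : 𝓞 Q3)) (fun i => j (b i))) rx_refl
    (rx_symm (fun _ => one_ne_zero) hd0)
  have hcard := card_gen hd0 hind' hR hR'
  have hN : 3 ^ s * (3 ^ m - 1) / 2 = R.card := by omega
  obtain ⟨h1, h2, h3⟩ := law_X (K := Q3) j hj (J₀ := Unit) (B₀ := Fin 0)
    (fun _ _ => 0) (b₀ := Fin.elim0) (fun i => i.elim0) hd R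
    (by rw [hC']; exact hR) (by rw [hC']; exact hR')
  simp only [hC, one_mul, kap_eq j hj] at h2 h3
  have hall : ∀ X : ℕ, {a : Fin m → 𝓞 Q3 | AllO X a}.ncard =
      {a : Fin m → Ei | ∀ k, nr (a k) ≤ X ∧ FamE (a k)}.ncard := by
    intro X
    rw [tuple_ncard j]
    congr 1
    ext a
    simp only [Set.mem_ofPred_eq]
    unfold AllO
    simp only [hj, famE_iff]
  have hin : ∀ a : Fin m → Ei, ((∀ (_ : Unit) (μ : Fin s → ZMod 3) (ν : Fin m → ZMod 3), ν ≠ 0 →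
      ¬ ExO (bp (fun i => j (b i)) μ * bp (fun k => j (a k)) ν)) ∧
      ∀ (μ : Fin s → ZMod 3) (ν : Fin m → ZMod 3), ν ≠ 0 →
        ¬ UO (bp (fun i => j (b i)) μ * bp (fun k => j (a k)) ν)) ↔ InE b a := by
    intro a
    unfold InE
    simp only [bp_bE, ← map_mul, exE_iff j hj]
    constructor
    · rintro ⟨h, -⟩
      exact h ()
    · intro h
      refine ⟨fun _ => h, fun μ ν hν hu => h μ ν hν ?_⟩
      rw [← exE_iff j hj]
      exact Or.inl hu
  refine ⟨?_, ?_, ?_, ?_⟩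
  · rintro ⟨a, ha, haI⟩
    rw [← kap_eq j hj]
    refine kapX_pos j hj (fun _ => ⟨0, isCl_one⟩) hd (a := fun k => j (a k))
      (fun k => (famE_iff j _).2 (ha k)) fun _ μ ν hν => ?_
    rw [one_mul]
    exact ((hin a).2 haI).1 () μ ν hν
  · obtain ⟨c, X₀, hc, h⟩ := h1
    exact ⟨c, hc, X₀, fun X hX => by rw [← hall]; exact h X hX⟩
  · have e2 : ∀ X : ℕ, {a : Fin m → 𝓞 Q3 | AllO X a ∧
        (∀ (_ : Unit) (μ : Fin s → ZMod 3) (ν : Fin m → ZMod 3), ν ≠ 0 →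
          ¬ ExO (bp (fun i => j (b i)) μ * bp a ν)) ∧
        ∀ (μ : Fin s → ZMod 3) (ν : Fin m → ZMod 3), ν ≠ 0 →
          ¬ UO (bp (fun i => j (b i)) μ * bp a ν)}.ncard =
        {a : Fin m → Ei | (∀ k, nr (a k) ≤ X ∧ FamE (a k)) ∧ InE b a}.ncard := by
      intro X
      rw [tuple_ncard j]
      congr 1
      ext a
      simp only [Set.mem_ofPred_eq]
      rw [hin a]
      unfold AllO
      simp only [hj, famE_iff]
    simp only [e2, hall] at h2
    exact h2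
  · have e3 : ∀ X : ℕ, {a : Fin m → 𝓞 Q3 | AllO X a ∧
        ((∀ (_ : Unit) (μ : Fin s → ZMod 3) (ν : Fin m → ZMod 3), ν ≠ 0 →
          ¬ ExO (bp (fun i => j (b i)) μ * bp a ν)) ∧
        ∀ (μ : Fin s → ZMod 3) (ν : Fin m → ZMod 3), ν ≠ 0 →
          ¬ UO (bp (fun i => j (b i)) μ * bp a ν)) ∧
        ∀ (_ : Unit) (μ : Fin s → ZMod 3) (ν : Fin m → ZMod 3), ν ≠ 0 →
          Tri (bp (fun i => j (b i)) μ * bp a ν)}.ncard =
        {a : Fin m → Ei | (∀ k, nr (a k) ≤ X ∧ FamE (a k)) ∧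
          (InE b a ∧ ∀ (μ : Fin s → ZMod 3) (ν : Fin m → ZMod 3), ν ≠ 0 →
            Gx (bE b μ * bE a ν))}.ncard := by
      intro X
      rw [tuple_ncard j]
      congr 1
      ext a
      simp only [Set.mem_ofPred_eq]
      rw [hin a]
      unfold AllO
      simp only [hj, famE_iff]
      refine and_congr_right fun h4 => and_congr_right fun h5 => ?_
      have ha : ∀ k, FamE (a k) := fun k => (h4 k).2
      constructor
      · intro h μ ν hν
        rw [gx_mon j hb ha (h5 μ ν hν), map_mul, ← bp_bE, ← bp_bE]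
        exact h () μ ν hν
      · intro h _ μ ν hν
        have h6 := (gx_mon j hb ha (h5 μ ν hν)).1 (h μ ν hν)
        rw [map_mul, ← bp_bE, ← bp_bE] at h6
        exact h6
    simp only [e3, hall] at h3
    rw [hN]
    exact h3

/-- the densities for `s = 0` -/
theorem kE_nil (b : Fin 0 → Ei) : kE b 1 = 8 / 9 ∧ kE b 2 = 16 / 27 := by
  obtain ⟨⟨j, hj⟩, -⟩ := Pool.Agent.Y455.CTK.jex Q3
  rw [← kap_eq j hj, ← kap_eq j hj]
  exact ferm_one j hj (J₀ := Unit) (C := fun _ => 1) (fun _ => rfl)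

end Run7.h707.TH
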