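import Pool.Agent.Run7.h707.TH.Van
import Pool.Agent.N848.Sch.M

/-!
# Corestriction to a subfield of an elementary abelian extension
-/

set_option autoImplicit false
set_option linter.unusedSectionVars false

namespace Run7.h707.TH

open Pool.Agent.N848.Sch
open Pool.Agent.Y692.QS
open Pool.Agent.Y715.T.Gi Pool.Agent.Y715.T.Nr Pool.Agent.Y715.T.Red Pool.Agent.Y715.T.Df
open Pool.Agent.Y715.T.Sel

variable {i₀ : QB}

/-- the action on the twist -/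
noncomputable def tw (r : ℤ) (σ : GK i₀) : ℤ_[3] := (((cyc i₀ σ) ^ r : ℤ_[3]ˣ) : ℤ_[3])

lemma E_tw (r : ℤ) (σ : GK i₀) : E r σ = om (tw r σ) := rfl

lemma tw_mul (r : ℤ) (σ τ : GK i₀) : tw r (σ * τ) = tw r σ * tw r τ := by
  apply om_inj
  rw [om_mul, ← E_tw, ← E_tw, ← E_tw, E_mul]

lemma tw_conj (r : ℤ) (g h : GK i₀) : tw r (g⁻¹ * h * g) = tw r h := by
  apply om_inj
  rw [← E_tw, ← E_tw, E_conj']

lemma om_sum {A : Type} (s : Finset A) (f : A → ℤ_[3]) : om (∑ x ∈ s, f x) = ∑ x ∈ s, om (f x) := by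
  classical
  induction s using Finset.induction_on with
  | empty => rw [Finset.sum_empty, Finset.sum_empty, om_zero]
  | insert x s hx ih => rw [Finset.sum_insert hx, Finset.sum_insert hx, om_add, ih]

section comp

variable {I : Type} [Fintype I] [DecidableEq I]
variable {a : GK i₀ → (I → ZMod 3)} {T : (I → ZMod 3) → GK i₀} {r : ℤ} {ct : GK i₀ → Om} {ζ : Om}

/-- the components of the good characters vanish -/
theorem comp_van (hi : i₀ ^ 2 + i₀ + 1 = 0) (hζ : IsPrimitiveRoot ζ 3)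
    (ha : ∀ σ τ, a (σ * τ) = a σ + a τ) (hlc : IsLocallyConstant a) (hT : ∀ i, a (T i) = i)
    (hct : ∀ σ τ, a σ = 0 → a τ = 0 → ct (σ * τ) = ct σ + E r σ * ct τ)
    (hcc : Continuous ct) (hcF : ∀ g, ct g ∈ Fz ζ)
    (H1 : ∀ (p : ℕ) [Fact p.Prime] (ι : QB →ₐ[ℚ] PadicAlgCl p), p ≠ 3 →
      ∀ (τ : Au p) (σ : GK i₀), Cmp ι τ σ → Inert τ → a σ = 0 → ct σ = 0)
    (H3 : ∀ ι : QB →ₐ[ℚ] PadicAlgCl 3, ∃ y : ℤ_[3], ∀ (τ : Au 3) (σ : GK i₀), Cmp ι τ σ →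
      a σ = 0 → ct σ = (E r σ - 1) * om y) (hr : r ≠ 0) (j : I → ZMod 3)
    (hG : Gd hi (fun σ => ip j (a σ))) :
    ∃ z : Om, ∀ g, cA ζ a T r ct j g = (rhoA ζ a r j g - 1) * z := by
  obtain ⟨ι₃⟩ := exists_emb3
  choose y hy using fun i : I → ZMod 3 => H3 (ι₃.comp (gh (T i)))
  obtain ⟨z, hz⟩ : ∃ z : Om, z = ∑ i : I → ZMod 3, Pool.Agent.N848.Sch.zt ζ (-ip i j) *
    E r (T i) * om (y i) := ⟨_, rfl⟩
  have h3 : ∀ (τ : Au 3) (g : GK i₀), Cmp ι₃ τ g →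
      cA ζ a T r ct j g = (rhoA ζ a r j g - 1) * z := by
    intro τ g hc
    rw [hz]
    exact decA_three hi hζ ha hT hct hy hr j hc
  have hzF : z ∈ Fz ζ := by
    rw [hz]
    exact sum_mem fun i _ => mul_mem (mul_mem (zt_mem _) (E_mem _ _ _)) (om_mem _ _)
  refine ⟨z, fun g => ?_⟩
  have hcoc : Coc (rhoA ζ a r j) (cA ζ a T r ct j) :=
    ⟨cA_cont hlc hcc j, cA_mul hζ.pow_eq_one ha hT hct j⟩
  have hc := hcoc.sub (rhoA_mul hζ.pow_eq_one ha j) (rhoA_cont hlc j) z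
  have key := van (χ := fun σ => ip j (a σ)) (r := r) (ζ := ζ)
    (c := fun g => cA ζ a T r ct j g - (rhoA ζ a r j g - 1) * z) (hi := hi) hζ
    (fun σ τ => by rw [ha, ip_add_right]) hc
    (fun g => sub_mem (cA_mem hcF j g) (mul_mem (sub_mem (rhoA_mem j g) (one_mem _)) hzF))
    (fun p _ ι hp τ σ hcmp hin h0 => by
      have h0' : ip j (a σ) = 0 := h0
      rw [cA_inert hζ ha hT hct H1 hp hcmp hin h0', rhoA_inert hp hcmp hin, h0', neg_zero, zt_zero,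
        sub_self, zero_mul, sub_zero]) ι₃
    (fun τ σ hcmp => by rw [h3 τ σ hcmp, sub_self]) hG g
  exact sub_eq_zero.1 key

end comp

section rel

variable {B C : Type} [Fintype B] [DecidableEq B] [Fintype C] [DecidableEq C]

lemma ip_sum (i : B ⊕ C → ZMod 3) (μ : B → ZMod 3) :
    ip i (Sum.elim μ 0) = ip (fun b => i (Sum.inl b)) μ := by
  unfold ip
  rw [Fintype.sum_sum_type]
  simp

lemma sum_split (F : (B ⊕ C → ZMod 3) → Om) :
    ∑ i, F i = ∑ β : B → ZMod 3, ∑ γ : C → ZMod 3, F (Sum.elim β γ) := by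
  rw [← Fintype.sum_prod_type']
  refine Fintype.sum_equiv (Equiv.sumArrowEquivProdArrow B C (ZMod 3)) _ _ fun i => ?_
  congr 1
  funext x
  rcases x with x | x <;> rfl

/-- partial orthogonality -/
theorem orthB {ζ : Om} (hζ : IsPrimitiveRoot ζ 3) (X : (B ⊕ C → ZMod 3) → Om) :
    ∑ μ : B → ZMod 3, ∑ i : B ⊕ C → ZMod 3,
      Pool.Agent.N848.Sch.zt ζ (-ip i (Sum.elim μ 0)) * X i =
    ((3 ^ Fintype.card B : ℕ) : Om) * ∑ γ : C → ZMod 3, X (Sum.elim 0 γ) := by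
  rw [Finset.sum_comm]
  simp only [ip_sum, ← Finset.sum_mul]
  rw [sum_split]
  have e : ∀ (β : B → ZMod 3) (γ : C → ZMod 3),
      (fun b => (Sum.elim β γ : B ⊕ C → ZMod 3) (Sum.inl b)) = β := fun β γ => rfl
  simp only [e]
  rw [Finset.sum_eq_single 0]
  · rw [orth_zero, Finset.mul_sum]
  · intro β _ hβ
    rw [orth hζ hβ]
    exact Finset.sum_eq_zero fun γ _ => zero_mul _
  · intro h
    exact absurd (Finset.mem_univ _) h

variable {a : GK i₀ → (B ⊕ C → ZMod 3)} {T : (B ⊕ C → ZMod 3) → GK i₀} {r : ℤ}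
  {c : GK i₀ → ℤ_[3]} {ζ : Om}

/-- the corestriction -/
noncomputable def corZ (a : GK i₀ → (B ⊕ C → ZMod 3)) (T : (B ⊕ C → ZMod 3) → GK i₀) (r : ℤ)
    (c : GK i₀ → ℤ_[3]) (g : GK i₀) : ℤ_[3] :=
  ∑ γ : C → ZMod 3, tw r (T (Sum.elim 0 γ)) *
    c ((T (Sum.elim 0 γ))⁻¹ * g * T ((Sum.elim 0 γ : B ⊕ C → ZMod 3) - a g))

lemma cor_sum (hζ : IsPrimitiveRoot ζ 3) (g : GK i₀) :
    ∑ μ : B → ZMod 3, cA ζ a T r (fun g => om (c g)) (Sum.elim μ 0) g =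
      ((3 ^ Fintype.card B : ℕ) : Om) * om (corZ a T r c g) := by
  have h := orthB hζ (fun i : B ⊕ C → ZMod 3 => E r (T i) * om (c ((T i)⁻¹ * g * T (i - a g))))
  unfold cA
  simp only [mul_assoc] at h ⊢
  rw [h]
  unfold corZ
  rw [om_sum]
  congr 1
  refine Finset.sum_congr rfl fun γ _ => ?_
  rw [om_mul, E_tw]
  simp only [mul_assoc]

lemma three_pow_ne (n : ℕ) : ((3 ^ n : ℕ) : Om) ≠ 0 := by
  have : (3 ^ n : ℕ) ≠ 0 := by positivity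
  exact_mod_cast this

lemma ipB {g : GK i₀} (hg : ∀ b, a g (Sum.inl b) = 0) (μ : B → ZMod 3) :
    ip (Sum.elim μ 0) (a g) = 0 := by
  rw [ip_comm, ip_sum]
  have e : (fun b => a g (Sum.inl b)) = 0 := funext hg
  rw [e, ip_zero_left]

lemma rhoB {g : GK i₀} (hg : ∀ b, a g (Sum.inl b) = 0) (μ : B → ZMod 3) :
    rhoA ζ a r (Sum.elim μ 0) g = E r g := rhoA_ker (ipB hg μ)

section

variable (hi : i₀ ^ 2 + i₀ + 1 = 0) (hζ : IsPrimitiveRoot ζ 3)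
  (ha : ∀ σ τ, a (σ * τ) = a σ + a τ) (hlc : IsLocallyConstant a) (hT : ∀ i, a (T i) = i)
  (hcm : ∀ σ τ, a σ = 0 → a τ = 0 → c (σ * τ) = c σ + tw r σ * c τ)
  (hcc : Continuous c)
  (H1 : ∀ (p : ℕ) [Fact p.Prime] (ι : QB →ₐ[ℚ] PadicAlgCl p), p ≠ 3 →
    ∀ (τ : Au p) (σ : GK i₀), Cmp ι τ σ → Inert τ → a σ = 0 → c σ = 0)
  (H3 : ∀ ι : QB →ₐ[ℚ] PadicAlgCl 3, ∃ y : ℤ_[3], ∀ (τ : Au 3) (σ : GK i₀), Cmp ι τ σ →
    a σ = 0 → c σ = (tw r σ - 1) * y) (hr : r ≠ 0)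

include hcm in
lemma omct : ∀ σ τ, a σ = 0 → a τ = 0 →
    om (c (σ * τ)) = om (c σ) + E r σ * om (c τ) := by
  intro σ τ hσ hτ
  rw [hcm σ τ hσ hτ, om_add, om_mul, E_tw]

include H1 in
lemma omH1 : ∀ (p : ℕ) [Fact p.Prime] (ι : QB →ₐ[ℚ] PadicAlgCl p), p ≠ 3 →
    ∀ (τ : Au p) (σ : GK i₀), Cmp ι τ σ → Inert τ → a σ = 0 → om (c σ) = 0 := by
  intro p _ ι hp τ σ hc hin h0
  rw [H1 p ι hp τ σ hc hin h0, om_zero]

include H3 in
lemma omH3 : ∀ ι : QB →ₐ[ℚ] PadicAlgCl 3, ∃ y : ℤ_[3], ∀ (τ : Au 3) (σ : GK i₀), Cmp ι τ σ →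
    a σ = 0 → om (c σ) = (E r σ - 1) * om y := by
  intro ι
  obtain ⟨y, hy⟩ := H3 ι
  refine ⟨y, fun τ σ hc h0 => ?_⟩
  rw [hy τ σ hc h0, om_mul, om_sub, om_one, E_tw]

include hζ ha hT hcm in
/-- the corestriction is a cocycle -/
theorem cor_mul {g h : GK i₀} (hg : ∀ b, a g (Sum.inl b) = 0) :
    corZ a T r c (g * h) = corZ a T r c g + tw r g * corZ a T r c h := by
  apply om_inj
  apply mul_left_cancel₀ (three_pow_ne (Fintype.card B))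
  rw [om_add, om_mul, ← E_tw, mul_add, ← cor_sum (r := r) hζ, ← cor_sum (r := r) hζ,
    mul_left_comm, ← cor_sum (r := r) hζ, Finset.mul_sum, ← Finset.sum_add_distrib]
  refine Finset.sum_congr rfl fun μ _ => ?_
  rw [cA_mul hζ.pow_eq_one ha hT (omct hcm), rhoB hg]

include hcc hlc in
lemma cor_cont : Continuous (corZ a T r c) := by
  unfold corZ
  refine continuous_finsetSum _ fun γ _ => ?_
  refine continuous_const.mul (hcc.comp ?_)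
  refine (continuous_const.mul continuous_id).mul ?_
  exact (hlc.comp fun x => T ((Sum.elim 0 γ : B ⊕ C → ZMod 3) - x)).continuous

include hζ ha hT hcm H1 in
theorem cor_away {p : ℕ} [Fact p.Prime] (hp : p ≠ 3) {ι : QB →ₐ[ℚ] PadicAlgCl p} {τ : Au p}
    {σ : GK i₀} (hc : Cmp ι τ σ) (hτ : Inert τ) (hσ : ∀ b, a σ (Sum.inl b) = 0) :
    corZ a T r c σ = 0 := by
  apply om_inj
  apply mul_left_cancel₀ (three_pow_ne (Fintype.card B))
  rw [← cor_sum (r := r) hζ, om_zero, mul_zero]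
  refine Finset.sum_eq_zero fun μ _ => ?_
  exact cA_inert hζ ha hT (omct hcm) (omH1 H1) hp hc hτ (ipB hσ μ)

include hi hζ ha hT hcm H3 hr in
theorem cor_three (ι : QB →ₐ[ℚ] PadicAlgCl 3) : ∃ y : ℤ_[3], ∀ (τ : Au 3) (σ : GK i₀),
    Cmp ι τ σ → (∀ b, a σ (Sum.inl b) = 0) → corZ a T r c σ = (tw r σ - 1) * y := by
  choose y hy using fun i : B ⊕ C → ZMod 3 => omH3 H3 (ι.comp (gh (T i)))
  refine ⟨∑ γ : C → ZMod 3, tw r (T (Sum.elim 0 γ)) * y (Sum.elim 0 γ), fun τ σ hc hσ => ?_⟩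
  apply om_inj
  apply mul_left_cancel₀ (three_pow_ne (Fintype.card B))
  have h := orthB hζ (fun i : B ⊕ C → ZMod 3 => E r (T i) * om (y i))
  rw [← cor_sum (r := r) hζ, om_mul, om_sub, om_one, ← E_tw, om_sum, mul_left_comm]
  have e : ∑ γ : C → ZMod 3, om (tw r (T (Sum.elim 0 γ)) * y (Sum.elim 0 γ)) =
      ∑ γ : C → ZMod 3, E r (T (Sum.elim 0 γ)) * om (y (Sum.elim 0 γ)) :=
    Finset.sum_congr rfl fun γ _ => by rw [om_mul, E_tw]
  rw [e, ← h, Finset.mul_sum]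
  refine Finset.sum_congr rfl fun μ _ => ?_
  rw [decA_three hi hζ ha hT (omct hcm) hy hr _ hc, rhoB hσ]
  congr 1
  exact Finset.sum_congr rfl fun i _ => by rw [mul_assoc]

include hi hζ ha hlc hT hcm hcc H1 H3 hr in
/-- the comparison -/
theorem cor_main (hG : ∀ j : B ⊕ C → ZMod 3, (∃ k, j (Sum.inr k) ≠ 0) →
      Gd hi (fun σ => ip j (a σ))) (hT0 : T 0 = 1) :
    ∃ Z : Om, ∀ g, a g = 0 →
      ((3 ^ Fintype.card (B ⊕ C) : ℕ) : Om) * om (c g) =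
        ((3 ^ Fintype.card B : ℕ) : Om) * om (corZ a T r c g) + (E r g - 1) * Z := by
  have h1 : ∀ j : B ⊕ C → ZMod 3, (∃ k, j (Sum.inr k) ≠ 0) →
      ∃ z : Om, ∀ g, cA ζ a T r (fun g => om (c g)) j g = (rhoA ζ a r j g - 1) * z :=
    fun j hj => comp_van hi hζ ha hlc hT (omct hcm) (om_cont.comp hcc)
      (fun g => om_mem _ _) (omH1 H1) (omH3 H3) hr j (hG j hj)
  have h2 : ∀ j : B ⊕ C → ZMod 3, ∃ z : Om, (∃ k, j (Sum.inr k) ≠ 0) →
      ∀ g, cA ζ a T r (fun g => om (c g)) j g = (rhoA ζ a r j g - 1) * z := by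
    intro j
    by_cases hj : ∃ k, j (Sum.inr k) ≠ 0
    · obtain ⟨z, hz⟩ := h1 j hj
      exact ⟨z, fun _ => hz⟩
    · exact ⟨0, fun h => absurd h hj⟩
  choose z hz using h2
  refine ⟨∑ β : B → ZMod 3, ∑ γ ∈ Finset.univ.erase (0 : C → ZMod 3), z (Sum.elim β γ),
    fun g hg => ?_⟩
  rw [← cA_sum (T := T) (r := r) (ct := fun g => om (c g)) hζ hT0 hg, sum_split,
    ← cor_sum (r := r) hζ, Finset.mul_sum, ← Finset.sum_add_distrib]
  refine Finset.sum_congr rfl fun β _ => ?_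
  rw [← Finset.add_sum_erase _ _ (Finset.mem_univ (0 : C → ZMod 3)), Finset.mul_sum]
  congr 1
  refine Finset.sum_congr rfl fun γ hγ => ?_
  have h3 : ∃ k, (Sum.elim β γ : B ⊕ C → ZMod 3) (Sum.inr k) ≠ 0 :=
    Function.ne_iff.1 (Finset.ne_of_mem_erase hγ)
  rw [hz _ h3 g, rhoA_ker (by rw [hg, ip_zero_right])]

end

end rel

end Run7.h707.TH
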