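import Pool.Agent.Run7.h707.TH.Gal
import Pool.Agent.Run7.h707.TF.FinX

/-!
# The criterion for the elements of the family
-/

set_option autoImplicit false
set_option linter.unusedSectionVars false

open scoped Classical

namespace Run7.h707.TH

open NumberField
open Pool.Agent.N848.Sch (PP pp_of exists_three)
open Pool.Agent.Y692.QS (Ei w nr)
open Pool.Agent.Y699.E (prm prm_mul prm_one)
open Pool.Agent.Y715.T.Gi (ev Kc QB GK lam)
open Pool.Agent.Y715.T.Sel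
open Pool.Agent.Y715.T.Rec (cs)
open Pool.Agent.Y715.T.RecG (Pq)
open Pool.Agent.Y696.CTK (Tri)
open Pool.Agent.N883.FF (KerB pB nq isUnit_w)
open Pool.Agent.Y703.CT (Dt pD Ker)
open Run7.h707.TC (FamU FamO NEc dlt UC elw Tt eT Uu famU_ex dlt_eq nec_iff tt_pq dt_U nx_iff)
open Run7.h707.TF (tri_pB)

/-- cubes modulo `q` -/
def CM (q x : Ei) : Prop := ∃ y : Ei, q ∣ x - y ^ 3

section

variable {J : Type} [Fintype J] {π : J → Ei} {e : J → ZMod 3} {i : ZMod 3}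

/-- the kernel in terms of cubes -/
def KX (π : J → Ei) (e : J → ZMod 3) (i : ZMod 3) : Prop :=
  ∀ v : J → ZMod 3, (∀ j, CM (π j) (w ^ (-(i * v j)).val *
    ∏ k, π k ^ (e k * (v k - v j)).val)) → (∀ j k, v j = v k) ∧ (i ≠ 0 → ∀ j, v j = 0)

lemma not_dvd_w {ρ : Ei} (h : Prime ρ) (n : ℕ) : ¬ ρ ∣ w ^ n := fun hd =>
  h.not_isUnit (isUnit_of_dvd_unit hd (isUnit_w.pow n))

lemma cm_iff (hπ : PP π) (e : J → ZMod 3) (i : ZMod 3) (v : J → ZMod 3) (j : J) :
    CM (π j) (w ^ (-(i * v j)).val * ∏ k, π k ^ (e k * (v k - v j)).val) ↔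
      ∑ k, e k * cs (π j) (π k) * (v k - v j) = i * nq (π j) * v j := by
  have hpj := (hπ.pq j).prime
  have h9 := (hπ.pq j).norm
  have hnd := hπ.not_dvd_prod j (fun k => (e k * (v k - v j)).val)
  have hnd1 : ∀ k ∈ Finset.univ.erase j, ¬ π j ∣ π k := fun k hkj =>
    hπ.nd k j (Finset.ne_of_mem_erase hkj)
  have e1 : ∏ k, π k ^ (e k * (v k - v j)).val =
      ∏ k ∈ Finset.univ.erase j, π k ^ (e k * (v k - v j)).val := by
    rw [← Finset.mul_prod_erase Finset.univ _ (Finset.mem_univ j), sub_self, mul_zero,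
      ZMod.val_zero, pow_zero, one_mul]
  have hndw : ¬ π j ∣ w := fun h => not_dvd_w hpj 1 (by rwa [pow_one])
  have hndm : ¬ π j ∣ w ^ (-(i * v j)).val *
      ∏ k ∈ Finset.univ.erase j, π k ^ (e k * (v k - v j)).val := fun h =>
    (hpj.dvd_or_dvd h).elim (not_dvd_w hpj _) hnd
  unfold CM
  rw [e1, ← Pool.Agent.Y715.T.RecG.cs_zero_iff hpj h9 hndm,
    Pool.Agent.Y715.T.RecG.cs_mul hpj h9 (not_dvd_w hpj _) hnd,
    Pool.Agent.Y715.T.RecG.cs_pow hpj h9 hndw, Pool.Agent.N883.FF.Ramc.cs_w (hπ.pq j),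
    Pool.Agent.Y715.T.RecG.cs_prod hpj h9 _ _
      (fun k hkj h1 => hnd1 k hkj (hpj.dvd_of_dvd_pow h1)),
    ← Finset.add_sum_erase Finset.univ _ (Finset.mem_univ j), sub_self, mul_zero, zero_add,
    ZMod.natCast_zmod_val]
  have e2 : ∀ k ∈ Finset.univ.erase j, cs (π j) (π k ^ (e k * (v k - v j)).val) =
      e k * cs (π j) (π k) * (v k - v j) := by
    intro k hkj
    rw [Pool.Agent.Y715.T.RecG.cs_pow hpj h9 (hnd1 k hkj), ZMod.natCast_zmod_val]
    ring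
  rw [Finset.sum_congr rfl e2]
  constructor
  · intro h
    linear_combination h
  · intro h
    linear_combination h

theorem kx_iff (hπ : PP π) (e : J → ZMod 3) (i : ZMod 3) :
    KX π e i ↔ (if i = 0 then Ker π e else KerB π e i) := by
  unfold KX
  simp only [cm_iff hπ]
  by_cases hi : i = 0
  · rw [if_pos hi, hi]
    unfold Ker
    simp only [zero_mul, ne_eq, not_true_eq_false, false_imp_iff, and_true]
  · rw [if_neg hi]
    unfold KerB
    refine forall_congr' fun v => imp_congr_right fun _ => ?_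
    constructor
    · rintro ⟨-, h⟩
      exact h hi
    · intro h
      exact ⟨fun j k => by rw [h j, h k], fun _ => h⟩

lemma pp_dt (hD : Dt π e) : PP π := ⟨hD.pq, hD.nd⟩

lemma dt_of (hπ : PP π) (he : ∀ j, e j ≠ 0) : Dt π e := ⟨hπ.pq, hπ.nd, he⟩

lemma pB_ne' (hD : Dt π e) : pB π e i ≠ 0 := Pool.Agent.N883.FF.Ramc.pB_ne hD i

variable {i₀ : QB} {hi : i₀ ^ 2 + i₀ + 1 = 0}

/-- the characters are good -/
theorem gd_data (hD : Dt π e) {c : Ei} (hc : c ≠ 0) (h9 : i = 0 → ¬ (9 : Ei) ∣ pD π e - 1)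
    (hk : if i = 0 then Ker π e else KerB π e i) {χ : GK i₀ → ZMod 3}
    (hχ : Kc hi (pB π e i * c ^ 3) χ) : Gd hi χ := by
  have hχ' := kc_cancel (pB_ne' hD) hc hχ
  by_cases h0 : i = 0
  · rw [if_pos h0] at hk
    have e1 : pB π e i = ∏ j, π j ^ (e j).val := by
      unfold pB pD
      rw [h0, ZMod.val_zero, pow_zero, one_mul]
    rw [e1] at hχ'
    refine Gd.one J π e (pp_dt hD) hD.e0 hk hχ' fun ι₃ => ?_
    exact exists_three ((pp_dt hD).prod_form fun j => (e j).val) (h9 h0) hχ' ι₃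
  · rw [if_neg h0] at hk
    exact Gd.unit J π e i (pp_dt hD) hD.e0 hk hχ'

/-- units -/
lemma unit_cube {z : Ei} (hz : nr z = 1) : z ^ 3 = 1 ∨ z ^ 3 = -1 := by
  obtain ⟨x, y⟩ := z
  have h : x ^ 2 - x * y + y ^ 2 = 1 := hz
  have hx : x ^ 2 ≤ 1 := by nlinarith [sq_nonneg (2 * y - x)]
  have hy : y ^ 2 ≤ 1 := by nlinarith [sq_nonneg (2 * x - y)]
  have hx1 : -1 ≤ x := by nlinarith
  have hx2 : x ≤ 1 := by nlinarith
  have hy1 : -1 ≤ y := by nlinarith
  have hy2 : y ≤ 1 := by nlinarith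
  have hx3 : x = -1 ∨ x = 0 ∨ x = 1 := by omega
  have hy3 : y = -1 ∨ y = 0 ∨ y = 1 := by omega
  rcases hx3 with rfl | rfl | rfl <;> rcases hy3 with rfl | rfl | rfl <;>
    first | (exfalso; norm_num at h; done) | (left; decide) | (right; decide)

/-- the elements are not cubes -/
theorem data_nc (hD : Dt π e) {c : Ei} (hc : c ≠ 0) (h9 : i = 0 → ¬ (9 : Ei) ∣ pD π e - 1)
    (y : Ei) : y ^ 3 ≠ pB π e i * c ^ 3 := by
  intro hy
  have h1 : c ∣ y := (IsIntegrallyClosed.pow_dvd_pow_iff three_ne_zero).1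
    ⟨pB π e i, by rw [hy]; ring⟩
  obtain ⟨z, rfl⟩ := h1
  have h2 : z ^ 3 = pB π e i := by
    apply mul_left_cancel₀ (pow_ne_zero 3 hc)
    linear_combination hy
  rcases isEmpty_or_nonempty J with hJ | ⟨⟨j⟩⟩
  · have h3 : pD π e = 1 := by
      unfold pD
      rw [Finset.univ_eq_empty, Finset.prod_empty]
    have hi0 : i ≠ 0 := by
      intro h
      apply h9 h
      rw [h3, sub_self]
      exact dvd_zero _
    have h4 : z ^ 3 = w ^ i.val := by
      rw [h2]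
      unfold pB
      rw [h3, mul_one]
    have hnz : nr z = 1 := by
      have h5 : IsUnit z := (isUnit_pow_iff three_ne_zero).1 (by rw [h4]; exact isUnit_w.pow _)
      exact Pool.Agent.Y692.QS.isUnit_iff.1 h5
    have h6 : ∀ i : ZMod 3, i ≠ 0 → ((w : Ei) ^ i.val ≠ 1 ∧ (w : Ei) ^ i.val ≠ -1) := by decide
    rcases unit_cube hnz with h | h
    · exact (h6 i hi0).1 (by rw [← h4, h])
    · exact (h6 i hi0).2 (by rw [← h4, h])
  · have hpj := (hD.pq j).prime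
    have h3 : pB π e i = (w ^ i.val * ∏ k ∈ Finset.univ.erase j, π k ^ (e k).val) *
        π j ^ (e j).val := by
      unfold pB pD
      rw [← Finset.mul_prod_erase Finset.univ _ (Finset.mem_univ j)]
      ring
    have hnd : ¬ π j ∣ w ^ i.val * ∏ k ∈ Finset.univ.erase j, π k ^ (e k).val := fun h =>
      (hpj.dvd_or_dvd h).elim (not_dvd_w hpj _) ((pp_dt hD).not_dvd_prod j fun k => (e k).val)
    have h0 : (e j).val ≠ 0 := fun h => hD.e0 j ((ZMod.val_eq_zero _).1 h)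
    have hlt := (e j).val_lt
    have h4 : π j ∣ z ^ 3 := by
      rw [h2, h3]
      exact dvd_mul_of_dvd_right (dvd_pow_self _ h0) _
    obtain ⟨t, rfl⟩ := hpj.dvd_of_dvd_pow h4
    rw [h3] at h2
    obtain ⟨m, hm⟩ : ∃ m, 3 = (e j).val + (m + 1) := ⟨2 - (e j).val, by omega⟩
    have h5 : (π j * t) ^ 3 = (π j ^ (m + 1) * t ^ 3) * π j ^ (e j).val := by
      rw [mul_pow]
      conv_lhs => rw [hm]
      rw [pow_add]
      have : (π j ^ (e j).val * π j ^ (m + 1)) * t ^ ((e j).val + (m + 1)) =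
        (π j ^ (m + 1) * t ^ 3) * π j ^ (e j).val := by
        rw [← hm]
        ring
      rw [this]
    rw [h5] at h2
    have h6 := mul_right_cancel₀ (pow_ne_zero _ hpj.ne_zero) h2
    apply hnd
    rw [← h6, pow_succ]
    exact ⟨π j ^ m * t ^ 3, by ring⟩

end

/-- good elements -/
def Gx (δ : Ei) : Prop := ∃ (J : Type) (_ : Fintype J) (π : J → Ei) (e : J → ZMod 3) (i : ZMod 3)
  (c : Ei), (∀ k, Prime (π k)) ∧ (∀ k, (3 : Ei) ∣ π k - 1) ∧ Function.Injective π ∧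
    (∀ k, e k ≠ 0) ∧ (3 : Ei) ∣ c - 1 ∧ δ = w ^ i.val * (∏ k, π k ^ (e k).val) * c ^ 3 ∧
    (i = 0 → ¬ (9 : Ei) ∣ (∏ k, π k ^ (e k).val) - 1) ∧ KX π e i

lemma c_ne {c : Ei} (hc : (3 : Ei) ∣ c - 1) : c ≠ 0 := by
  rintro rfl
  rw [zero_sub, dvd_neg] at hc
  have h1 := Pool.Agent.Y692.QS.isUnit_iff.1 (isUnit_of_dvd_one hc)
  have h2 : nr (3 : Ei) = 9 := by decide
  rw [h2] at h1
  norm_num at h1

theorem gx_gd {i₀ : QB} {hi : i₀ ^ 2 + i₀ + 1 = 0} {δ : Ei} (h : Gx δ) {χ : GK i₀ → ZMod 3}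
    (hχ : Kc hi δ χ) : Gd hi χ := by
  obtain ⟨J, _, π, e, i, c, h1, h2, h3, h4, h5, h6, h7, h8⟩ := h
  have hπ : PP π := pp_of (fun j => ⟨h1 j, h2 j⟩) h3
  refine gd_data (dt_of hπ h4) (c_ne h5) h7 ((kx_iff hπ e i).1 h8) ?_
  rw [h6] at hχ
  exact hχ

theorem gx_nc {δ : Ei} (h : Gx δ) (y : Ei) : y ^ 3 ≠ δ := by
  obtain ⟨J, _, π, e, i, c, h1, h2, h3, h4, h5, h6, h7, h8⟩ := h
  have hπ : PP π := pp_of (fun j => ⟨h1 j, h2 j⟩) h3
  rw [h6]
  exact data_nc (dt_of hπ h4) (c_ne h5) h7 y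

section tri

variable {K : Type} [Field K] [NumberField K] (j : Ei ≃+* 𝓞 K)

/-- the canonical form of a nonexceptional monomial -/
theorem canonP {m : ℕ} (n : Fin m → ℕ) {a : Fin m → Ei} (ha : ∀ k, FamU (a k))
    (hn : NEc (dlt n a)) : ∃ (J : Type) (_ : Fintype J) (_ : Nonempty J) (π : J → Ei)
      (e : J → ZMod 3) (i : ZMod 3) (c : Ei), Dt π e ∧ prm c ∧ dlt n a = pB π e i * c ^ 3 ∧
      (i = 0 → ¬ (9 : ℤ) ∣ nr (pD π e) - 1) := by
  choose i M S hS hM haa using fun k => famU_ex (ha k)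
  have hae : a = fun k => elw (i k) (M k) (S k) := funext haa
  rw [hae] at hn
  obtain ⟨z, hz, hzp, hd⟩ := dlt_eq n i hM hS
  have h0 := (nec_iff hM hS).1 hn
  have hTt := tt_pq hS
  have hD := dt_U hTt (eT n M S)
  have hnE : Nonempty ↥(Uu (Tt S) (eT n M S)) := h0.1.to_subtype
  refine ⟨_, inferInstance, hnE, _, _, ∑ k, (n k : ZMod 3) * i k, z, hD, hzp, ?_,
    fun hy h9 => ?_⟩
  · rw [hae]
    exact hd
  · have h2 := (nx_iff hD (∑ k, (n k : ZMod 3) * i k) hzp).2 ⟨hy, h9⟩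
    have h3 := hn.2
    rw [hd] at h3
    exact h3 h2

/-- elements that are `1` modulo `9` have norm `1` modulo `9` -/
lemma nr_nine {D : Ei} (h : (9 : Ei) ∣ D - 1) : (9 : ℤ) ∣ nr D - 1 := by
  obtain ⟨q, hq⟩ := h
  have hD : D = 1 + 9 * q := by rw [← hq]; ring
  have a1 : (9 : Ei).re = 9 := rfl
  have a2 : (9 : Ei).im = 0 := rfl
  have a3 : (1 : Ei).re = 1 := rfl
  have a4 : (1 : Ei).im = 0 := rfl
  have e1 : D.re = 1 + 9 * q.re := by
    rw [hD, QuadraticAlgebra.re_add, QuadraticAlgebra.re_mul, a1, a2, a3]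
    ring
  have e2 : D.im = 9 * q.im := by
    rw [hD, QuadraticAlgebra.im_add, QuadraticAlgebra.im_mul, a1, a2, a4]
    ring
  refine ⟨2 * q.re + 9 * q.re ^ 2 - (1 + 9 * q.re) * q.im + 9 * q.im ^ 2, ?_⟩
  have e3 : nr D = D.re ^ 2 - D.re * D.im + D.im ^ 2 := rfl
  rw [e3, e1, e2]
  ring

/-- **the criterion** for the elements of the family -/
theorem gx_tri {m : ℕ} (n : Fin m → ℕ) {a : Fin m → Ei} (ha : ∀ k, FamU (a k))
    (hn : NEc (dlt n a)) : Gx (dlt n a) ↔ Tri (j (dlt n a)) := by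
  constructor
  · rintro ⟨J, _, π, e, i, c, h1, h2, h3, h4, h5, h6, h7, h8⟩
    have hπ : PP π := pp_of (fun j => ⟨h1 j, h2 j⟩) h3
    have hD := dt_of hπ h4
    have h6' : dlt n a = pB π e i * c ^ 3 := h6
    have hJ : Nonempty J := by
      by_contra hJ
      rw [not_nonempty_iff] at hJ
      apply hn.1
      refine ⟨w ^ i.val, c, isUnit_w.pow _, ?_⟩
      rw [h6, Finset.univ_eq_empty, Finset.prod_empty, mul_one]
    have h9 : i = 0 → ¬ (9 : ℤ) ∣ nr (pD π e) - 1 := fun hi h9 => by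
      have h10 := (nx_iff hD i (c := c) h5).2 ⟨hi, h9⟩
      have h11 := hn.2
      rw [h6'] at h11
      exact h11 h10
    rw [h6', tri_pB j hD h9 (c_ne h5)]
    exact (kx_iff hπ e i).1 h8
  · intro h
    obtain ⟨J, _, _, π, e, i, c, hD, hc, hd, h9⟩ := canonP n ha hn
    rw [hd, tri_pB j hD h9 (c_ne hc)] at h
    refine ⟨J, inferInstance, π, e, i, c, fun k => (hD.pq k).prime, fun k => (hD.pq k).three,
      ?_, hD.e0, hc, hd, fun hi h9' => h9 hi (nr_nine h9'), (kx_iff (pp_dt hD) e i).2 h⟩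
    intro k l hkl
    by_contra hne
    exact hD.nd k l hne (by rw [hkl])

end tri

end Run7.h707.TH
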