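import Pool.Agent.Run7.h707.TH.Rk

/-!
# The fields generated by cube roots
-/

set_option autoImplicit false
set_option linter.unusedSectionVars false

namespace Run7.h707.TH

open Pool.Agent.N848.Sch
open Pool.Agent.Y692.QS
open Pool.Agent.Y715.T.Gi Pool.Agent.Y715.T.Nr Pool.Agent.Y715.T.Red Pool.Agent.Y715.T.Df
open Pool.Agent.Y715.T.Sel
open IntermediateField

variable {i₀ : QB}

/-- fixed cube roots -/
theorem cube_of_fix (hi : i₀ ^ 2 + i₀ + 1 = 0) {δ : Ei} {s : QB} (hs : s ^ 3 = ev i₀ hi δ)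
    (hfix : ∀ σ : GK i₀, σ s = s) : ∃ y : Ei, δ = y ^ 3 := by
  have h1 : s ∈ Set.range (algebraMap (KK i₀) QB) :=
    (InfiniteGalois.mem_range_algebraMap_iff_fixed s).2 hfix
  obtain ⟨⟨s', hs'⟩, rfl⟩ := h1
  obtain ⟨a, b, e⟩ := KK_ex hi hs'
  have e' : algebraMap (KK i₀) QB ⟨s', hs'⟩ = a + b * i₀ := e
  rw [e'] at hs
  have hda : (a.den : QB) ≠ 0 := by exact_mod_cast a.den_ne_zero
  have hdb : (b.den : QB) ≠ 0 := by exact_mod_cast b.den_ne_zero
  obtain ⟨N, hN⟩ : ∃ N : ℕ, N = a.den * b.den := ⟨_, rfl⟩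
  have hN0 : N ≠ 0 := by
    rw [hN]
    exact mul_ne_zero a.den_ne_zero b.den_ne_zero
  set z : Ei := ⟨a.num * b.den, b.num * a.den⟩ with hz
  have hxz : ev i₀ hi z = (N : QB) * (a + b * i₀) := by
    rw [ev_apply]
    show ((a.num * b.den : ℤ) : QB) + ((b.num * a.den : ℤ) : QB) * i₀ = _
    have ha : (a : QB) = a.num / a.den := by
      conv_lhs => rw [← Rat.num_div_den a]
      push_cast
      rfl
    have hb : (b : QB) = b.num / b.den := by
      conv_lhs => rw [← Rat.num_div_den b]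
      push_cast
      rfl
    rw [ha, hb, hN]
    push_cast
    field_simp
  have h3 : z ^ 3 = (N : Ei) ^ 3 * δ := by
    have h4 : ev i₀ hi (z ^ 3 - (N : Ei) ^ 3 * δ) = 0 := by
      rw [map_sub, map_mul, map_pow, map_pow, map_natCast, hxz, ← hs]
      ring
    exact sub_eq_zero.1 (ev_inj hi h4)
  have h5 : (N : Ei) ∣ z := (IsIntegrallyClosed.pow_dvd_pow_iff three_ne_zero).1 ⟨δ, h3⟩
  obtain ⟨y, hy⟩ := h5
  refine ⟨y, ?_⟩
  have hN3 : (N : Ei) ^ 3 ≠ 0 := pow_ne_zero _ (Nat.cast_ne_zero.2 hN0)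
  apply mul_left_cancel₀ hN3
  rw [← h3, hy]
  ring

/-- the Kummer character of an element that is not a cube -/
theorem kc_nt {hi : i₀ ^ 2 + i₀ + 1 = 0} {δ : Ei} (hδ : ∀ y : Ei, y ^ 3 ≠ δ)
    {χ : GK i₀ → ZMod 3} (hχ : Kc hi δ χ) : ∃ σ, χ σ ≠ 0 := by
  by_contra hcon
  push Not at hcon
  obtain ⟨s, hs⟩ := ex_root (ev i₀ hi δ)
  obtain ⟨y, hy⟩ := cube_of_fix hi hs fun σ => by
    rw [hχ s hs σ, hcon σ, ZMod.val_zero, pow_zero, one_mul]
  exact hδ y hy.symm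

/-- surjectivity -/
theorem sur_of {I : Type} [Fintype I] [DecidableEq I] {a : GK i₀ → (I → ZMod 3)}
    (ha : ∀ σ τ, a (σ * τ) = a σ + a τ) (hne : ∀ j : I → ZMod 3, j ≠ 0 → ∃ σ, ip j (a σ) ≠ 0) :
    Function.Surjective a := by
  have hpow : ∀ (σ : GK i₀) (n : ℕ), a (σ ^ n) = n • a σ := by
    intro σ n
    induction n with
    | zero => rw [pow_zero, zero_smul, aA_one ha]
    | succ n ih =>
      have e : σ ^ (n + 1) = σ ^ n * σ := pow_succ σ n
      rw [e, ha, ih, succ_nsmul]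
  let V : Submodule (ZMod 3) (I → ZMod 3) :=
    { carrier := Set.range a
      add_mem' := by
        rintro _ _ ⟨σ, rfl⟩ ⟨τ, rfl⟩
        exact ⟨σ * τ, ha σ τ⟩
      zero_mem' := ⟨1, aA_one ha⟩
      smul_mem' := by
        rintro c _ ⟨σ, rfl⟩
        refine ⟨σ ^ c.val, ?_⟩
        rw [hpow]
        funext k
        show c.val • a σ k = c * a σ k
        rw [nsmul_eq_mul, ZMod.natCast_zmod_val] }
  have hV : V = ⊤ := by
    by_contra hcon
    obtain ⟨f, hf, hfV⟩ := Submodule.exists_le_ker_of_lt_top V (lt_top_iff_ne_top.2 hcon)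
    set j : I → ZMod 3 := fun i => f fun k => if i = k then 1 else 0 with hj
    have h1 : ∀ x, f x = ip j x := by
      intro x
      rw [LinearMap.pi_apply_eq_sum_univ f x]
      unfold ip
      exact Finset.sum_congr rfl fun i _ => by rw [smul_eq_mul, mul_comm]
    have hj0 : j ≠ 0 := by
      intro h
      apply hf
      ext i
      simp [h1, h, ip_zero_left]
    obtain ⟨σ, hσ⟩ := hne j hj0
    apply hσ
    rw [← h1]
    exact LinearMap.mem_ker.1 (hfV ⟨σ, rfl⟩)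
  intro x
  have : x ∈ V := by rw [hV]; trivial
  exact this

lemma kc_fin {hi : i₀ ^ 2 + i₀ + 1 = 0} {I : Type} (s : Finset I) {D : I → Ei}
    (hD : ∀ k, D k ≠ 0) {χ : I → GK i₀ → ZMod 3} (hχ : ∀ k, Kc hi (D k) (χ k)) :
    Kc hi (∏ k ∈ s, D k) (fun σ => ∑ k ∈ s, χ k σ) := by
  classical
  induction s using Finset.induction_on with
  | empty =>
    rw [Finset.prod_empty]
    exact kc_one
  | insert x s hx ih =>
    rw [Finset.prod_insert hx]
    refine kc_congr (kc_mul (hD x) (Finset.prod_ne_zero_iff.2 fun k _ => hD k) (hχ x) ih)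
      fun σ => ?_
    rw [Finset.sum_insert hx]

/-- the characters of the monomials -/
theorem kc_mon {hi : i₀ ^ 2 + i₀ + 1 = 0} {I : Type} [Fintype I] {D : I → Ei}
    (hD : ∀ k, D k ≠ 0) {χ : I → GK i₀ → ZMod 3} (hχ : ∀ k, Kc hi (D k) (χ k))
    (j : I → ZMod 3) :
    Kc hi (∏ k, D k ^ (j k).val) (fun σ => ip j (fun k => χ k σ)) := by
  refine kc_congr (kc_fin Finset.univ (fun k => pow_ne_zero (j k).val (hD k))
    (fun k => kc_pow (hD k) (hχ k) (j k).val)) fun σ => ?_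
  unfold ip
  exact Finset.sum_congr rfl fun k _ => by rw [ZMod.natCast_zmod_val]

/-- the fixing subgroup of a generated field -/
lemma mem_fixS {S : Set QB} {σ : GK i₀} :
    σ ∈ (adjoin (KK i₀) S).fixingSubgroup ↔ ∀ s ∈ S, σ s = s := by
  rw [IntermediateField.mem_fixingSubgroup_iff]
  constructor
  · intro h s hs
    exact h s (subset_adjoin (KK i₀) S hs)
  · intro h x hx
    have h1 : adjoin (KK i₀) S ≤ fixedField (Subgroup.zpowers σ) := by
      rw [adjoin_le_iff]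
      intro s hs
      refine (IntermediateField.mem_fixedField_iff _ s).2 fun τ hτ => ?_
      obtain ⟨k, rfl⟩ := hτ
      have h2 : σ ∈ MulAction.stabilizer (GK i₀) s := h s hs
      exact (MulAction.stabilizer (GK i₀) s).zpow_mem h2 k
    exact (IntermediateField.mem_fixedField_iff _ x).1 (h1 hx) σ (Subgroup.mem_zpowers σ)

/-- the data of the fields generated by cube roots -/
theorem fd_ex {hi : i₀ ^ 2 + i₀ + 1 = 0} {B C : Type} [Fintype B] [DecidableEq B] [Fintype C]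
    [DecidableEq C] {b : B → Ei} {d : C → Ei} (hb : ∀ i, b i ≠ 0) (hd : ∀ k, d k ≠ 0)
    {β : B → QB} (hβ : ∀ i, β i ^ 3 = ev i₀ hi (b i)) {α : C → QB}
    (hα : ∀ k, α k ^ 3 = ev i₀ hi (d k))
    (hind : ∀ j : B ⊕ C → ZMod 3, j ≠ 0 → ∀ y : Ei, y ^ 3 ≠ ∏ k, Sum.elim b d k ^ (j k).val)
    (hG : ∀ j : B ⊕ C → ZMod 3, (∃ k, j (Sum.inr k) ≠ 0) → ∀ χ : GK i₀ → ZMod 3,
      Kc hi (∏ k, Sum.elim b d k ^ (j k).val) χ → Gd hi χ) :
    ∃ a : GK i₀ → (B ⊕ C → ZMod 3), Fd hi (adjoin (KK i₀) (Set.range β)).fixingSubgroup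
      (adjoin (KK i₀) (Set.range β ∪ Set.range α)).fixingSubgroup a := by
  have hD : ∀ k : B ⊕ C, Sum.elim b d k ≠ 0 := by
    rintro (i | k)
    · exact hb i
    · exact hd k
  have hR : ∀ k : B ⊕ C, Sum.elim β α k ^ 3 = ev i₀ hi (Sum.elim b d k) := by
    rintro (i | k)
    · exact hβ i
    · exact hα k
  have h1 := fun k => exists_kc hi (hD k)
  choose χ hχ hm hlc using h1
  set a : GK i₀ → (B ⊕ C → ZMod 3) := fun σ k => χ k σ with ha
  have hmul : ∀ σ τ, a (σ * τ) = a σ + a τ := fun σ τ => funext fun k => hm k σ τ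
  have hmon := fun j : B ⊕ C → ZMod 3 => kc_mon hD hχ j
  have hzero : ∀ (k : B ⊕ C) (σ : GK i₀), χ k σ = 0 ↔ σ (Sum.elim β α k) = Sum.elim β α k := by
    intro k σ
    rw [hχ k _ (hR k) σ]
    constructor
    · intro h
      rw [h, ZMod.val_zero, pow_zero, one_mul]
    · intro h
      apply i₀_inj (hi := hi)
      apply mul_right_cancel₀ (root_ne (hD k) (hR k))
      rw [h, ZMod.val_zero, pow_zero, one_mul]
  refine ⟨a, hmul, ?_, ?_, ?_, ?_, ?_⟩
  · rw [IsLocallyConstant.iff_continuous]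
    exact continuous_pi fun k => (IsLocallyConstant.iff_continuous _).1 (hlc k)
  · exact sur_of hmul fun j hj => kc_nt (hind j hj) (hmon j)
  · intro σ
    rw [mem_fixS]
    constructor
    · rintro h s (⟨i, rfl⟩ | ⟨k, rfl⟩)
      · exact (hzero (Sum.inl i) σ).1 (congrFun h (Sum.inl i))
      · exact (hzero (Sum.inr k) σ).1 (congrFun h (Sum.inr k))
    · intro h
      funext k
      rcases k with i | k
      · exact (hzero (Sum.inl i) σ).2 (h _ (Or.inl ⟨i, rfl⟩))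
      · exact (hzero (Sum.inr k) σ).2 (h _ (Or.inr ⟨k, rfl⟩))
  · intro σ
    rw [mem_fixS]
    constructor
    · rintro h s ⟨i, rfl⟩
      exact (hzero (Sum.inl i) σ).1 (h i)
    · intro h i
      exact (hzero (Sum.inl i) σ).2 (h _ ⟨i, rfl⟩)
  · intro j hj
    exact hG j hj _ (hmon j)

/-- the degree -/
theorem fd_deg {hi : i₀ ^ 2 + i₀ + 1 = 0} {B C : Type} [Fintype B] [DecidableEq B] [Fintype C]
    [DecidableEq C] {H0 : Subgroup (GK i₀)} {L : IntermediateField (KK i₀) QB}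
    {a : GK i₀ → (B ⊕ C → ZMod 3)} (hF : Fd hi H0 L.fixingSubgroup a) :
    Module.finrank (KK i₀) L = 3 ^ (Fintype.card B + Fintype.card C) := by
  rw [IntermediateField.finrank_eq_fixingSubgroup_index QB L]
  let f : GK i₀ →* Multiplicative (B ⊕ C → ZMod 3) :=
    { toFun := fun σ => Multiplicative.ofAdd (a σ)
      map_one' := by rw [aA_one hF.mul]; rfl
      map_mul' := fun σ τ => by rw [hF.mul]; rfl }
  have hk : f.ker = L.fixingSubgroup := by
    ext σ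
    rw [MonoidHom.mem_ker]
    exact hF.ker σ
  have hs : Function.Surjective f := fun x => by
    obtain ⟨σ, hσ⟩ := hF.sur x.toAdd
    exact ⟨σ, by
      show Multiplicative.ofAdd (a σ) = x
      rw [hσ]
      rfl⟩
  rw [← hk, Subgroup.index_ker, MonoidHom.range_eq_top.2 hs]
  have e : Nat.card (⊤ : Subgroup (Multiplicative (B ⊕ C → ZMod 3))) =
      Nat.card (B ⊕ C → ZMod 3) := by
    rw [Subgroup.card_top]
    exact Nat.card_congr Multiplicative.toAdd
  rw [e, Nat.card_eq_fintype_card, Fintype.card_fun, ZMod.card, Fintype.card_sum]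

/-- the degree of the base field -/
theorem fd_deg0 {hi : i₀ ^ 2 + i₀ + 1 = 0} {B C : Type} [Fintype B] [DecidableEq B] [Fintype C]
    [DecidableEq C] {H : Subgroup (GK i₀)} {L : IntermediateField (KK i₀) QB}
    {a : GK i₀ → (B ⊕ C → ZMod 3)} (hF : Fd hi L.fixingSubgroup H a) :
    Module.finrank (KK i₀) L = 3 ^ Fintype.card B := by
  rw [IntermediateField.finrank_eq_fixingSubgroup_index QB L]
  let f : GK i₀ →* Multiplicative (B → ZMod 3) :=
    { toFun := fun σ => Multiplicative.ofAdd fun b => a σ (Sum.inl b)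
      map_one' := by rw [aA_one hF.mul]; rfl
      map_mul' := fun σ τ => by rw [hF.mul]; rfl }
  have hk : f.ker = L.fixingSubgroup := by
    ext σ
    rw [MonoidHom.mem_ker, ← hF.ker0 σ]
    constructor
    · intro h b
      exact congrFun (show (fun b => a σ (Sum.inl b)) = 0 from h) b
    · intro h
      exact (show (fun b => a σ (Sum.inl b)) = 0 from funext h)
  have hs : Function.Surjective f := fun x => by
    obtain ⟨σ, hσ⟩ := hF.sur (Sum.elim x.toAdd 0)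
    refine ⟨σ, ?_⟩
    show Multiplicative.ofAdd (fun b => a σ (Sum.inl b)) = x
    rw [hσ]
    rfl
  rw [← hk, Subgroup.index_ker, MonoidHom.range_eq_top.2 hs]
  have e : Nat.card (⊤ : Subgroup (Multiplicative (B → ZMod 3))) =
      Nat.card (B → ZMod 3) := by
    rw [Subgroup.card_top]
    exact Nat.card_congr Multiplicative.toAdd
  rw [e, Nat.card_eq_fintype_card, Fintype.card_fun, ZMod.card]

/-- the base field -/
theorem sz_top (hi : i₀ ^ 2 + i₀ + 1 = 0) {r : ℤ} (hr : r ≠ 0) : SZ (⊤ : Subgroup (GK i₀)) r := by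
  intro c hc hs
  obtain ⟨ζ, hζ⟩ := HasEnoughRootsOfUnity.exists_primitiveRoot QB 3
  obtain ⟨ι₀⟩ := exists_emb3
  have hζ' : IsPrimitiveRoot (ι₀ ζ) 3 := hζ.map_of_injective ι₀.injective
  set c' : GK i₀ → ℤ_[3] := fun σ => c ⟨σ, trivial⟩ with hc'
  set a : GK i₀ → (Fin 0 ⊕ Fin 0 → ZMod 3) := fun _ => 0 with ha
  have hcm : ∀ σ τ, a σ = 0 → a τ = 0 → c' (σ * τ) = c' σ + tw r σ * c' τ := by
    intro σ τ _ _
    exact hc.mul ⟨σ, trivial⟩ ⟨τ, trivial⟩
  have H1 : ∀ (p : ℕ) [Fact p.Prime] (ι : QB →ₐ[ℚ] PadicAlgCl p), p ≠ 3 →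
      ∀ (τ : Au p) (σ : GK i₀), Cmp ι τ σ → Inert τ → a σ = 0 → c' σ = 0 := by
    intro p _ ι hp τ σ hcmp hin _
    exact hs.away p ι hp τ ⟨σ, trivial⟩ hcmp hin
  have H3 : ∀ ι : QB →ₐ[ℚ] PadicAlgCl 3, ∃ y : ℤ_[3], ∀ (τ : Au 3) (σ : GK i₀), Cmp ι τ σ →
      a σ = 0 → c' σ = (tw r σ - 1) * y := by
    intro ι
    obtain ⟨y, hy⟩ := hs.three ι
    exact ⟨y, fun τ σ hcmp _ => hy τ ⟨σ, trivial⟩ hcmp⟩
  have hcc : Continuous c' := hc.cont.comp (Continuous.subtype_mk continuous_id _)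
  have hG : Gd hi (fun σ => ip (0 : Fin 0 ⊕ Fin 0 → ZMod 3) (a σ)) :=
    Gd.triv fun σ => ip_zero_left _
  have hT : ∀ i, a ((fun _ => 1 : (Fin 0 ⊕ Fin 0 → ZMod 3) → GK i₀) i) = i := fun i =>
    Subsingleton.elim _ _
  obtain ⟨z, hz⟩ := comp_van (T := fun _ => 1) (a := a) (ζ := ι₀ ζ)
    (ct := fun g => om (c' g)) hi hζ'
    (fun σ τ => Subsingleton.elim _ _) (IsLocallyConstant.const 0) hT
    (omct hcm) (om_cont.comp hcc) (fun g => om_mem _ _)
    (omH1 H1) (omH3 H3) hr 0 hG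
  have hz' : ∀ σ : (⊤ : Subgroup (GK i₀)), om (c σ) = (E r (σ : GK i₀) - 1) * z := by
    intro σ
    have h1 := hz σ
    have h2 : rhoA (ι₀ ζ) a r 0 (σ : GK i₀) = E r (σ : GK i₀) := rhoA_ker (ip_zero_left _)
    rw [h2] at h1
    rw [← h1]
    unfold cA
    rw [Fintype.sum_unique]
    have e0 : ip (default : Fin 0 ⊕ Fin 0 → ZMod 3) 0 = 0 := ip_zero_right _
    have e1 : (1 : GK i₀)⁻¹ * (σ : GK i₀) * 1 = σ := by group
    show om (c σ) = Pool.Agent.N848.Sch.zt (ι₀ ζ) (-ip (default : Fin 0 ⊕ Fin 0 → ZMod 3) 0) *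
      E r (1 : GK i₀) * om (c' ((1 : GK i₀)⁻¹ * (σ : GK i₀) * 1))
    rw [e0, neg_zero, zt_zero, E_one, one_mul, one_mul, e1]
  obtain ⟨ι₃⟩ := exists_emb3
  obtain ⟨-, h, -, -, hE⟩ := exE (H := ⊤) hi hr (fun _ => Subgroup.mem_top _) ι₃
  obtain ⟨d, hd, hcb⟩ := desc (H := (⊤ : Subgroup (GK i₀))) ⟨h, trivial, hE⟩ hz'
  exact tfree hi hr (fun _ => Subgroup.mem_top _) hs hd hcb

end Run7.h707.TH
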