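import Pool.Agent.N848.Sch.C
import Pool.Agent.N883.FF.Tri
import Pool.Agent.N883.FF.Ramc

/-!
# Cubic characters with local conditions, for the elements `ω ^ i ∏ π_j ^ (e_j)`

The case `i ≠ 0` of the theorem `kfin` of `Pool/Agent/N848/Sch/C.lean`, adapted from there.
-/

set_option autoImplicit false
set_option linter.unusedSectionVars false

namespace Run7.h707.TH

open Pool.Agent.N848.Sch
open Pool.Agent.Y692.QS
open Pool.Agent.Y715.T.Gi Pool.Agent.Y715.T.Nr Pool.Agent.Y715.T.Red Pool.Agent.Y715.T.Df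
open Pool.Agent.Y715.T.Thr Pool.Agent.Y715.T.Sel
open Pool.Agent.Y715.T.Rec (cs)
open Pool.Agent.Y715.T.RecG (Pq)
open Pool.Agent.N883.FF (KerB pB nq isUnit_w)
open Pool.Agent.Y703.CT (Dt pD Ker)

variable {i₀ : QB} {hi : i₀ ^ 2 + i₀ + 1 = 0}
  {J : Type} [Fintype J] [DecidableEq J] {π : J → Ei} {e : J → ZMod 3} {i : ZMod 3}

/-- **Cubic characters with local conditions are trivial**, the case with a unit -/
theorem kfinB (hπ : PP π) (he : ∀ j, e j ≠ 0) (hker : KerB π e i)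
    {χ : GK i₀ → ZMod 3} (hχ : Kc hi (w ^ i.val * ∏ j, π j ^ (e j).val) χ)
    {ψ : GK i₀ → ZMod 3} (hlc : IsLocallyConstant ψ) (hm : ∀ σ τ, ψ (σ * τ) = ψ σ + ψ τ)
    (h1 : ∀ (p : ℕ) [Fact p.Prime] (ι : QB →ₐ[ℚ] PadicAlgCl p), p ≠ 3 →
      (∀ j, ¬ ‖ι (ev i₀ hi (π j))‖ < 1) → ∀ (τ : Au p) (σ : GK i₀), Cmp ι τ σ → Inert τ → ψ σ = 0)
    (h2 : ∀ (j : J) (p : ℕ) [Fact p.Prime] (ι : QB →ₐ[ℚ] PadicAlgCl p), p ≠ 3 →
      ‖ι (ev i₀ hi (π j))‖ < 1 → ∃ t : ZMod 3, ∀ (τ : Au p) (σ : GK i₀), Cmp ι τ σ →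
        ψ σ = t * χ σ)
    (ι₃ : QB →ₐ[ℚ] PadicAlgCl 3)
    (h3 : ∀ (τ : Au 3) (σ : GK i₀), Cmp ι₃ τ σ → ψ σ = 0) (σ : GK i₀) :
    ψ σ = 0 := by
  obtain ⟨z, hz, hzh⟩ := kum hi ψ hlc hm
  have hsupp : ∀ ρ : Ei, Prime ρ → ρ ∣ z → Associated ρ lam ∨ ∃ j, Associated ρ (π j) := by
    intro ρ hρ hd
    by_contra hcon
    push Not at hcon
    obtain ⟨p, hp, ι, hl⟩ := exists_emb hi hρ
    have hp3 := odd_of hi ι hρ hl hcon.1
    refine not_dvd_of_unr hz hzh hp3 ι hρ hl (h1 p ι hp3 fun j hj => hcon.2 j ?_) hd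
    rw [iota_ev] at hl hj
    exact (hρ.dvd_prime_iff_associated (hπ.pq j).prime).1
      ((dvd_iff (iota_sq hi ι) hρ hl _).2 hj)
  obtain ⟨u, g, x, hu, ez⟩ := fac (π := π) z hz.1 hsupp
  have h0 : ∀ f : J → ℕ, ∏ j, π j ^ f j ≠ 0 := fun f =>
    Finset.prod_ne_zero_iff.2 fun j _ => pow_ne_zero _ (hπ.p0 j)
  have hw0 : ∀ k : ℕ, (w : Ei) ^ k ≠ 0 := fun k => (isUnit_w.pow k).ne_zero
  -- the place above three
  obtain ⟨q, hq⟩ := hπ.prod_form x
  have hq' : ∏ j, π j ^ x j = 1 + 3 * q := by rw [← hq]; ring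
  have hx : Kc hi (∏ j, π j ^ x j) ψ := by
    obtain ⟨s, hs⟩ := ex_root (ev i₀ hi z)
    have hv : ι₃ s ∈ Lf (ι₃ i₀) := by
      intro τ _ hτI
      obtain ⟨σ, hc⟩ := exists_cmp ι₃ τ hτI
      rw [hc, hzh s hs σ, h3 τ σ hc, ZMod.val_zero, pow_zero, one_mul]
    obtain ⟨⟨g', hg'⟩, hu1⟩ := gen (iota_sq hi ι₃) hu hv (z := 0) (by rw [norm_zero]; exact zero_le_one)
      (zero_mem _) (q := q) (g := g) (by
        rw [mul_zero, add_zero, mul_one, ← map_pow, hs, iota_ev, ez, hq'])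
    refine kc_unit (h0 x) hu1 (kc_cancel (z' := lam ^ g') ?_ (pow_ne_zero _ prime_lam.ne_zero) ?_)
    · exact mul_ne_zero hu.ne_zero (h0 x)
    · have e1 : u * (∏ j, π j ^ x j) * (lam ^ g') ^ 3 = u * lam ^ g * ∏ j, π j ^ x j := by
        rw [hg', ← pow_mul, mul_comm g' 3]
        ring
      rw [e1, ← ez]
      exact hzh
  have hesq : ∀ j, e j * e j = 1 := by
    intro j
    have h := he j
    generalize e j = c at *
    revert c
    decide
  set v : J → ZMod 3 := fun j => x j * e j with hv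
  have hxv : ∀ j, (x j : ZMod 3) = e j * v j := by
    intro j
    have := hesq j
    calc (x j : ZMod 3) = x j * (e j * e j) := by rw [this, mul_one]
      _ = _ := by rw [hv]; ring
  have heq : ∀ j, ∑ k, e k * cs (π j) (π k) * (v k - v j) = i * nq (π j) * v j := by
    intro j
    obtain ⟨p, hp, ι, hl⟩ := exists_emb hi (hπ.pq j).prime
    have hp3 := odd_of hi ι (hπ.pq j).prime hl (pq_not_assoc (hπ.pq j))
    obtain ⟨t, ht⟩ := h2 j p ι hp3 hl
    obtain ⟨τ₁, σ₁, c, hc₁, hτ₁, hc0, hs₁⟩ := exists_ram (hπ.pq j).prime hp3 ι hl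
    have split : ∀ f : J → ℕ, ∏ i, π i ^ f i =
        (∏ i ∈ Finset.univ.erase j, π i ^ f i) * π j ^ f j := fun f => by
      rw [← Finset.mul_prod_erase Finset.univ (fun i => π i ^ f i) (Finset.mem_univ j)]
      ring
    have hndw : ¬ π j ∣ w := fun hd => (hπ.pq j).prime.not_isUnit (isUnit_of_dvd_unit hd isUnit_w)
    have hndwp : ∀ k : ℕ, ¬ π j ∣ w ^ k := fun k hd =>
      (hπ.pq j).prime.not_isUnit (isUnit_of_dvd_unit hd (isUnit_w.pow k))
    have hψ₁ : ψ σ₁ = x j * c := by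
      refine ram_exp' (hπ.pq j).prime (hπ.not_dvd_prod j x) ?_ hp3 ι hl hc₁ hτ₁ hs₁
      rw [← split]
      exact hx
    have hχ₁ : χ σ₁ = e j * c := by
      have := ram_exp' (w := w ^ i.val * ∏ l ∈ Finset.univ.erase j, π l ^ (e l).val)
        (x := (e j).val) (hπ.pq j).prime
        (fun hd => ((hπ.pq j).prime.dvd_or_dvd hd).elim (hndwp _)
          (hπ.not_dvd_prod j (fun j => (e j).val))) (by
          rw [mul_assoc, ← split (fun j => (e j).val)]
          exact hχ) hp3 ι hl hc₁ hτ₁ hs₁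
      rw [this, ZMod.natCast_zmod_val]
    have htv : t = v j := by
      have h5 := ht τ₁ σ₁ hc₁
      rw [hψ₁, hχ₁] at h5
      have h6 := hesq j
      have h7 : (x j : ZMod 3) = t * e j := by
        have h8 : ∀ a b d : ZMod 3, d ≠ 0 → a * d = b * d → a = b := by decide
        exact h8 _ _ c hc0 (by rw [h5]; ring)
      rw [hv]
      show t = x j * e j
      rw [h7, mul_assoc, h6, mul_one]
    -- the character that is trivial at `π j`
    set n : ℕ := (-v j).val with hn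
    have hn3 : (n : ZMod 3) = -v j := ZMod.natCast_zmod_val _
    have hδ0 : w ^ i.val * ∏ j, π j ^ (e j).val ≠ 0 := mul_ne_zero (hw0 _) (h0 _)
    have hy := kc_mul (h0 x) (pow_ne_zero n hδ0) hx (kc_pow hδ0 hχ n)
    have hy1 : ∀ (τ : Au p) (σ : GK i₀), Cmp ι τ σ → ψ σ + n * χ σ = 0 := by
      intro τ σ hcc
      rw [ht τ σ hcc, htv, hn3]
      ring
    set y : J → ℕ := fun i => x i + (e i).val * n with hydef
    have ey : (∏ l, π l ^ x l) * (w ^ i.val * ∏ l, π l ^ (e l).val) ^ n =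
        w ^ (i.val * n) * ∏ l, π l ^ y l := by
      rw [mul_pow, ← pow_mul, ← Finset.prod_pow, mul_left_comm, ← Finset.prod_mul_distrib]
      congr 1
      refine Finset.prod_congr rfl fun l _ => ?_
      rw [← pow_mul, ← pow_add]
    rw [ey] at hy
    have hycast : ∀ l, (y l : ZMod 3) = e l * (v l - v j) := by
      intro l
      rw [hydef]
      push_cast
      rw [hn3, hxv l, ZMod.natCast_zmod_val]
      ring
    obtain ⟨l, hl3⟩ : 3 ∣ y j := by
      rw [← ZMod.natCast_eq_zero_iff, hycast j, sub_self, mul_zero]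
    have hW0 : w ^ (i.val * n) * ∏ i ∈ Finset.univ.erase j, π i ^ y i ≠ 0 :=
      mul_ne_zero (hw0 _) (Finset.prod_ne_zero_iff.2 fun i _ => pow_ne_zero _ (hπ.p0 i))
    have hW : Kc hi (w ^ (i.val * n) * ∏ i ∈ Finset.univ.erase j, π i ^ y i)
        (fun σ => ψ σ + n * χ σ) := by
      refine kc_cancel (z' := π j ^ l) hW0 (pow_ne_zero _ (hπ.p0 j)) ?_
      have e1 : (w ^ (i.val * n) * ∏ i ∈ Finset.univ.erase j, π i ^ y i) * (π j ^ l) ^ 3 =
          w ^ (i.val * n) * ∏ i, π i ^ y i := by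
        rw [split, ← pow_mul, mul_comm l 3, ← hl3]
        ring
      rw [e1]
      exact hy
    have hcube := resid_kc hW hp3 ι (hπ.pq j).prime hl hy1
    have hnd := hπ.not_dvd_prod j y
    have hndW : ¬ π j ∣ w ^ (i.val * n) * ∏ i ∈ Finset.univ.erase j, π i ^ y i := fun hd =>
      ((hπ.pq j).prime.dvd_or_dvd hd).elim (hndwp _) hnd
    have h9 := (hπ.pq j).norm
    have hpj := (hπ.pq j).prime
    have hcs := (Pool.Agent.Y715.T.RecG.cs_zero_iff hpj h9 hndW).2 hcube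
    have hnd1 : ∀ i ∈ Finset.univ.erase j, ¬ π j ∣ π i := fun i hij =>
      hπ.nd i j (Finset.ne_of_mem_erase hij)
    rw [Pool.Agent.Y715.T.RecG.cs_mul hpj h9 (hndwp _) hnd,
      Pool.Agent.Y715.T.RecG.cs_pow hpj h9 hndw, Pool.Agent.N883.FF.Ramc.cs_w (hπ.pq j),
      Pool.Agent.Y715.T.RecG.cs_prod hpj h9 _ _
      (fun i hij h1 => hnd1 i hij (hpj.dvd_of_dvd_pow h1))] at hcs
    have hin : ((i.val * n : ℕ) : ZMod 3) = -(i * v j) := by
      push_cast
      rw [ZMod.natCast_zmod_val, hn3]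
      ring
    rw [hin] at hcs
    rw [← Finset.add_sum_erase Finset.univ _ (Finset.mem_univ j), sub_self, mul_zero, zero_add]
    have e5 : ∑ k ∈ Finset.univ.erase j, e k * cs (π j) (π k) * (v k - v j) =
        ∑ k ∈ Finset.univ.erase j, cs (π j) (π k ^ y k) := by
      refine Finset.sum_congr rfl fun k hkj => ?_
      rw [Pool.Agent.Y715.T.RecG.cs_pow hpj h9 (hnd1 k hkj), hycast k]
      ring
    rw [e5]
    linear_combination hcs
  have hzero := hker v heq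
  have hx0 : Kc hi ((1 : Ei)) ψ := by
    have h5 : Kc hi (∏ j, π j ^ (3 * 0)) ψ := by
      refine kc_exp (x := x) (y := fun _ => 3 * 0) hπ.p0 (fun j => ?_) hx
      rw [hxv j, hzero j, mul_zero]
      simp
    simpa using h5
  exact kc_uniq one_ne_zero hx0 kc_one σ

end Run7.h707.TH
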