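import Pool.Agent.Run7.h707.TH.Cor

/-!
# Comparison of the Tate–Shafarevich groups of the twists in elementary abelian extensions
-/

set_option autoImplicit false
set_option linter.unusedSectionVars false

namespace Run7.h707.TH

open Pool.Agent.N848.Sch
open Pool.Agent.Y692.QS
open Pool.Agent.Y715.T.Gi Pool.Agent.Y715.T.Nr Pool.Agent.Y715.T.Red Pool.Agent.Y715.T.Df
open Pool.Agent.Y715.T.Sel

variable {i₀ : QB}

/-- cocycles -/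
structure Cy (H : Subgroup (GK i₀)) (r : ℤ) (c : H → ℤ_[3]) : Prop where
  cont : Continuous c
  mul : ∀ σ τ, c (σ * τ) = c σ + tw r (σ : GK i₀) * c τ

/-- the local conditions -/
structure Sh (H : Subgroup (GK i₀)) (r : ℤ) (c : H → ℤ_[3]) : Prop where
  away : ∀ (p : ℕ) [Fact p.Prime] (ι : QB →ₐ[ℚ] PadicAlgCl p), p ≠ 3 →
    ∀ (τ : Au p) (σ : H), Cmp ι τ (σ : GK i₀) → Inert τ → c σ = 0
  three : ∀ ι : QB →ₐ[ℚ] PadicAlgCl 3, ∃ y : ℤ_[3], ∀ (τ : Au 3) (σ : H),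
    Cmp ι τ (σ : GK i₀) → c σ = (tw r (σ : GK i₀) - 1) * y

/-- coboundaries -/
def Cb (H : Subgroup (GK i₀)) (r : ℤ) (c : H → ℤ_[3]) : Prop :=
  ∃ y : ℤ_[3], ∀ σ : H, c σ = (tw r (σ : GK i₀) - 1) * y

/-- vanishing -/
def SZ (H : Subgroup (GK i₀)) (r : ℤ) : Prop :=
  ∀ c : H → ℤ_[3], Cy H r c → Sh H r c → Cb H r c

/-- bound of the rank -/
def RL (H : Subgroup (GK i₀)) (r : ℤ) (m : ℕ) : Prop :=
  ∀ c : Fin (m + 1) → H → ℤ_[3], (∀ i, Cy H r (c i)) → (∀ i, Sh H r (c i)) →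
    ∃ x : Fin (m + 1) → ℤ_[3], (∃ i, x i ≠ 0) ∧ Cb H r fun σ => ∑ i, x i * c i σ

section basic

variable {H H' : Subgroup (GK i₀)} {r : ℤ}

lemma tw_ne {h : GK i₀} (hE : E r h ≠ 1) : tw r h - 1 ≠ 0 := by
  intro h0
  apply hE
  rw [E_tw, sub_eq_zero.1 h0, om_one]

lemma exE (hi : i₀ ^ 2 + i₀ + 1 = 0) (hr : r ≠ 0) (hH : ∀ σ : GK i₀, σ ^ 3 ∈ H)
    (ι : QB →ₐ[ℚ] PadicAlgCl 3) :
    ∃ (τ : Au 3) (σ : GK i₀), Cmp ι τ σ ∧ σ ∈ H ∧ E r σ ≠ 1 := by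
  obtain ⟨τ, σ, hcmp, hE⟩ := exists_E_ne hi ι hr (n := 3) (by norm_num)
  exact ⟨_, _, cmp_pow hcmp 3, hH σ, hE⟩

/-- descent from the algebraic closure -/
lemma desc (hE : ∃ h : GK i₀, h ∈ H ∧ E r h ≠ 1) {x : H → ℤ_[3]} {W : Om}
    (hx : ∀ σ : H, om (x σ) = (E r (σ : GK i₀) - 1) * W) :
    ∃ d : ℤ_[3], d ≠ 0 ∧ Cb H r (fun σ => d * x σ) := by
  obtain ⟨h, hh, hE⟩ := hE
  refine ⟨tw r h - 1, tw_ne hE, x ⟨h, hh⟩, fun σ => ?_⟩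
  apply om_inj
  rw [om_mul, om_mul, om_sub, om_sub, om_one, ← E_tw, ← E_tw, hx, hx]
  ring

/-- torsion-freeness -/
lemma tfree (hi : i₀ ^ 2 + i₀ + 1 = 0) (hr : r ≠ 0) (hH : ∀ σ : GK i₀, σ ^ 3 ∈ H)
    {c : H → ℤ_[3]} (hs : Sh H r c) {X : ℤ_[3]} (hX : X ≠ 0) (h : Cb H r fun σ => X * c σ) :
    Cb H r c := by
  obtain ⟨y, hy⟩ := h
  obtain ⟨ι₃⟩ := exists_emb3
  obtain ⟨y', hy'⟩ := hs.three ι₃
  obtain ⟨τ, σ, hcmp, hσ, hE⟩ := exE hi hr hH ι₃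
  have h1 := hy ⟨σ, hσ⟩
  have h2 := hy' τ ⟨σ, hσ⟩ hcmp
  have h3 : y = X * y' := by
    apply mul_left_cancel₀ (tw_ne hE)
    have h1' : X * c ⟨σ, hσ⟩ = (tw r σ - 1) * y := h1
    have h2' : c ⟨σ, hσ⟩ = (tw r σ - 1) * y' := h2
    rw [← h1', h2']
    ring
  refine ⟨y', fun σ => ?_⟩
  have h4 := hy σ
  rw [h3] at h4
  apply mul_left_cancel₀ hX
  have h4' : X * c σ = (tw r (σ : GK i₀) - 1) * (X * y') := h4
  rw [h4']
  ring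

/-- restriction -/
def rs (hle : H ≤ H') (c : H' → ℤ_[3]) : H → ℤ_[3] := fun σ => c ⟨σ, hle σ.2⟩

lemma Cy.rs (hle : H ≤ H') {c : H' → ℤ_[3]} (hc : Cy H' r c) : Cy H r (rs hle c) := by
  refine ⟨hc.cont.comp (Continuous.subtype_mk continuous_subtype_val _), fun σ τ => ?_⟩
  exact hc.mul ⟨σ, hle σ.2⟩ ⟨τ, hle τ.2⟩

lemma Sh.rs (hle : H ≤ H') {c : H' → ℤ_[3]} (hc : Sh H' r c) : Sh H r (rs hle c) := by
  refine ⟨fun p _ ι hp τ σ hcmp hin => hc.away p ι hp τ ⟨σ, hle σ.2⟩ hcmp hin, fun ι => ?_⟩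
  obtain ⟨y, hy⟩ := hc.three ι
  exact ⟨y, fun τ σ hcmp => hy τ ⟨σ, hle σ.2⟩ hcmp⟩

/-- injectivity of the restriction -/
lemma cb_of_rs (hle : H ≤ H') (hn : ∀ g ∈ H', ∀ h ∈ H, g⁻¹ * h * g ∈ H)
    (hE : ∃ h : GK i₀, h ∈ H ∧ E r h ≠ 1) {c : H' → ℤ_[3]}
    (hm : ∀ σ τ, c (σ * τ) = c σ + tw r (σ : GK i₀) * c τ) (h : Cb H r (rs hle c)) :
    Cb H' r c := by
  obtain ⟨y, hy⟩ := h
  obtain ⟨h, hh, hE⟩ := hE
  refine ⟨y, fun g => ?_⟩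
  have hy1 : ∀ (σ : GK i₀) (hσ : σ ∈ H), c ⟨σ, hle hσ⟩ = (tw r σ - 1) * y :=
    fun σ hσ => hy ⟨σ, hσ⟩
  have hh' := hn g g.2 h hh
  have e : (⟨h, hle hh⟩ : H') * g = g * ⟨(g : GK i₀)⁻¹ * h * g, hle hh'⟩ := by
    apply Subtype.ext
    show h * (g : GK i₀) = g * ((g : GK i₀)⁻¹ * h * g)
    group
  have h1 := hm ⟨h, hle hh⟩ g
  rw [e, hm, hy1 _ hh, hy1 _ hh', tw_conj] at h1
  have h1' : c g + tw r (g : GK i₀) * ((tw r h - 1) * y) =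
      (tw r h - 1) * y + tw r h * c g := h1
  apply mul_left_cancel₀ (tw_ne hE)
  linear_combination -h1'

theorem sz_dn (hle : H ≤ H') (hn : ∀ g ∈ H', ∀ h ∈ H, g⁻¹ * h * g ∈ H)
    (hE : ∃ h : GK i₀, h ∈ H ∧ E r h ≠ 1) (h : SZ H r) : SZ H' r := by
  intro c hc hs
  exact cb_of_rs hle hn hE hc.mul (h _ (hc.rs hle) (hs.rs hle))

theorem rl_dn (hle : H ≤ H') (hn : ∀ g ∈ H', ∀ h ∈ H, g⁻¹ * h * g ∈ H)
    (hE : ∃ h : GK i₀, h ∈ H ∧ E r h ≠ 1) {m : ℕ} (h : RL H r m) : RL H' r m := by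
  intro c hc hs
  obtain ⟨x, hx, hcb⟩ := h (fun i => rs hle (c i)) (fun i => (hc i).rs hle)
    (fun i => (hs i).rs hle)
  refine ⟨x, hx, cb_of_rs hle hn hE (fun σ τ => ?_) hcb⟩
  rw [Finset.mul_sum, ← Finset.sum_add_distrib]
  refine Finset.sum_congr rfl fun i _ => ?_
  rw [(hc i).mul]
  ring

end basic

section up

variable {B C : Type} [Fintype B] [DecidableEq B] [Fintype C] [DecidableEq C]

/-- the data of an extension -/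
structure Fd (hi : i₀ ^ 2 + i₀ + 1 = 0) (H0 H : Subgroup (GK i₀))
    (a : GK i₀ → (B ⊕ C → ZMod 3)) : Prop where
  mul : ∀ σ τ, a (σ * τ) = a σ + a τ
  lc : IsLocallyConstant a
  sur : Function.Surjective a
  ker : ∀ σ, a σ = 0 ↔ σ ∈ H
  ker0 : ∀ σ, (∀ b, a σ (Sum.inl b) = 0) ↔ σ ∈ H0
  gd : ∀ j : B ⊕ C → ZMod 3, (∃ k, j (Sum.inr k) ≠ 0) → Gd hi (fun σ => ip j (a σ))

variable {hi : i₀ ^ 2 + i₀ + 1 = 0} {H0 H : Subgroup (GK i₀)} {a : GK i₀ → (B ⊕ C → ZMod 3)}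
  {r : ℤ}

lemma Fd.le (hF : Fd hi H0 H a) : H ≤ H0 := by
  intro σ hσ
  rw [← hF.ker0]
  intro b
  rw [(hF.ker σ).2 hσ, Pi.zero_apply]

lemma Fd.cube (hF : Fd hi H0 H a) (σ : GK i₀) : σ ^ 3 ∈ H := by
  rw [← hF.ker]
  exact aA_cube hF.mul σ

/-- subgroups which contain `H` are normal -/
lemma Fd.nor (hF : Fd hi H0 H a) {N : Subgroup (GK i₀)} (hN : H ≤ N) (g h : GK i₀) (hh : h ∈ N) :
    g⁻¹ * h * g ∈ N := by
  have e : g⁻¹ * h * g = (g⁻¹ * h * g * h⁻¹) * h := by group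
  rw [e]
  refine mul_mem (hN ?_) hh
  rw [← hF.ker, hF.mul, hF.mul, hF.mul, aA_inv hF.mul, aA_inv hF.mul]
  abel

/-- the corestriction of a class -/
theorem up1 (hF : Fd hi H0 H a) (hr : r ≠ 0) {c : H → ℤ_[3]} (hc : Cy H r c) (hs : Sh H r c) :
    ∃ c0 : H0 → ℤ_[3], Cy H0 r c0 ∧ Sh H0 r c0 ∧ ∃ Z : Om,
      ∀ (σ : GK i₀) (h : σ ∈ H) (h0 : σ ∈ H0),
        ((3 ^ Fintype.card (B ⊕ C) : ℕ) : Om) * om (c ⟨σ, h⟩) =
          ((3 ^ Fintype.card B : ℕ) : Om) * om (c0 ⟨σ, h0⟩) + (E r σ - 1) * Z := by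
  classical
  obtain ⟨ζ, hζ⟩ := HasEnoughRootsOfUnity.exists_primitiveRoot QB 3
  obtain ⟨ι₀⟩ := exists_emb3
  have hζ' : IsPrimitiveRoot (ι₀ ζ) 3 := hζ.map_of_injective ι₀.injective
  choose t ht using hF.sur
  set T : (B ⊕ C → ZMod 3) → GK i₀ := fun i => if i = 0 then 1 else t i with hTdef
  have hT0 : T 0 = 1 := if_pos rfl
  have hT : ∀ i, a (T i) = i := by
    intro i
    by_cases h : i = 0
    · rw [h, hT0, aA_one hF.mul]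
    · have e : T i = t i := if_neg h
      rw [e, ht]
  set c' : GK i₀ → ℤ_[3] := fun σ => if h : σ ∈ H then c ⟨σ, h⟩ else 0 with hc'
  have hval : ∀ σ : H, c' (σ : GK i₀) = c σ := by
    intro σ
    rw [hc']
    exact dif_pos σ.2
  have hval' : ∀ (σ : GK i₀) (h : σ ∈ H), c' σ = c ⟨σ, h⟩ := by
    intro σ h
    rw [hc']
    exact dif_pos h
  have hclop : IsClopen (H : Set (GK i₀)) := by
    have e1 : (H : Set (GK i₀)) = a ⁻¹' {0} := by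
      ext σ
      exact (hF.ker σ).symm
    rw [e1]
    exact hF.lc.isClopen_fiber 0
  have hcont : Continuous c' := by
    rw [← continuousOn_univ, ← Set.union_compl_self (H : Set (GK i₀))]
    refine ContinuousOn.union_of_isOpen ?_ ?_ hclop.isOpen hclop.compl.isOpen
    · rw [continuousOn_iff_continuous_domRestrict]
      have e : (↑H : Set (GK i₀)).domRestrict c' = fun σ => c σ := by
        funext σ
        exact hval σ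
      rw [e]
      exact hc.cont
    · refine (continuousOn_const (c := (0 : ℤ_[3]))).congr fun σ hσ => ?_
      rw [hc']
      exact dif_neg hσ
  have hcm : ∀ σ τ, a σ = 0 → a τ = 0 → c' (σ * τ) = c' σ + tw r σ * c' τ := by
    intro σ τ hσ hτ
    have hσ' := (hF.ker σ).1 hσ
    have hτ' := (hF.ker τ).1 hτ
    rw [hval' σ hσ', hval' τ hτ', hval' (σ * τ) (mul_mem hσ' hτ')]
    exact hc.mul ⟨σ, hσ'⟩ ⟨τ, hτ'⟩
  have H1 : ∀ (p : ℕ) [Fact p.Prime] (ι : QB →ₐ[ℚ] PadicAlgCl p), p ≠ 3 →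
      ∀ (τ : Au p) (σ : GK i₀), Cmp ι τ σ → Inert τ → a σ = 0 → c' σ = 0 := by
    intro p _ ι hp τ σ hcmp hin h0
    rw [hval' σ ((hF.ker σ).1 h0)]
    exact hs.away p ι hp τ ⟨σ, _⟩ hcmp hin
  have H3 : ∀ ι : QB →ₐ[ℚ] PadicAlgCl 3, ∃ y : ℤ_[3], ∀ (τ : Au 3) (σ : GK i₀), Cmp ι τ σ →
      a σ = 0 → c' σ = (tw r σ - 1) * y := by
    intro ι
    obtain ⟨y, hy⟩ := hs.three ι
    refine ⟨y, fun τ σ hcmp h0 => ?_⟩
    rw [hval' σ ((hF.ker σ).1 h0)]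
    exact hy τ ⟨σ, _⟩ hcmp
  refine ⟨fun σ => corZ a T r c' (σ : GK i₀), ⟨?_, fun σ τ => ?_⟩, ⟨?_, fun ι => ?_⟩, ?_⟩
  · exact (cor_cont hF.lc hcont).comp continuous_subtype_val
  · exact cor_mul hζ' hF.mul hT hcm ((hF.ker0 _).2 σ.2)
  · intro p _ ι hp τ σ hcmp hin
    exact cor_away hζ' hF.mul hT hcm H1 hp hcmp hin ((hF.ker0 _).2 σ.2)
  · obtain ⟨y, hy⟩ := cor_three hi hζ' hF.mul hT hcm H3 hr ι
    exact ⟨y, fun τ σ hcmp => hy τ σ hcmp ((hF.ker0 _).2 σ.2)⟩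
  · obtain ⟨Z, hZ⟩ := cor_main hi hζ' hF.mul hF.lc hT hcm hcont H1 H3 hr hF.gd hT0
    refine ⟨Z, fun σ h h0 => ?_⟩
    rw [← hZ σ ((hF.ker σ).2 h), hval' σ h]

lemma Fd.exE (hF : Fd hi H0 H a) (hr : r ≠ 0) : ∃ h : GK i₀, h ∈ H ∧ E r h ≠ 1 := by
  obtain ⟨ι₃⟩ := exists_emb3
  obtain ⟨-, σ, -, h1, h2⟩ := Run7.h707.TH.exE hi hr hF.cube ι₃
  exact ⟨σ, h1, h2⟩

lemma pow3_ne (n : ℕ) : ((3 ^ n : ℕ) : ℤ_[3]) ≠ 0 := by
  have : (3 ^ n : ℕ) ≠ 0 := by positivity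
  exact_mod_cast this

lemma om_nat (n : ℕ) : om (n : ℤ_[3]) = (n : Om) := by
  induction n with
  | zero => rw [Nat.cast_zero, Nat.cast_zero, om_zero]
  | succ n ih => rw [Nat.cast_succ, Nat.cast_succ, om_add, ih, om_one]

theorem sz_up (hF : Fd hi H0 H a) (hr : r ≠ 0) (h : SZ H0 r) : SZ H r := by
  intro c hc hs
  obtain ⟨c0, hc0, hs0, Z, hZ⟩ := up1 hF hr hc hs
  obtain ⟨y, hy⟩ := h c0 hc0 hs0
  obtain ⟨d, hd, hcb⟩ := desc (x := fun σ : H => ((3 ^ Fintype.card (B ⊕ C) : ℕ) : ℤ_[3]) * c σ)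
    (W := ((3 ^ Fintype.card B : ℕ) : Om) * om y + Z) (hF.exE hr) (fun σ => by
      rw [om_mul, om_nat]
      have h1 := hZ σ σ.2 (hF.le σ.2)
      rw [hy ⟨σ, hF.le σ.2⟩, om_mul, om_sub, om_one, ← E_tw] at h1
      have h2 : ((3 ^ Fintype.card (B ⊕ C) : ℕ) : Om) * om (c σ) = _ := h1
      rw [h2]
      ring)
  refine tfree hi hr hF.cube hs (X := d * ((3 ^ Fintype.card (B ⊕ C) : ℕ) : ℤ_[3]))
    (mul_ne_zero hd (pow3_ne _)) ?_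
  obtain ⟨y', hy'⟩ := hcb
  refine ⟨y', fun σ => ?_⟩
  rw [← hy' σ]
  ring

theorem rl_up (hF : Fd hi H0 H a) (hr : r ≠ 0) {m : ℕ} (h : RL H0 r m) : RL H r m := by
  intro c hc hs
  have h1 := fun i => up1 hF hr (hc i) (hs i)
  choose c0 hc0 hs0 Z hZ using h1
  obtain ⟨x, ⟨i₁, hx⟩, y, hy⟩ := h c0 hc0 hs0
  obtain ⟨d, hd, hcb⟩ := desc
    (x := fun σ : H => ((3 ^ Fintype.card (B ⊕ C) : ℕ) : ℤ_[3]) * ∑ i, x i * c i σ)
    (W := ((3 ^ Fintype.card B : ℕ) : Om) * om y + ∑ i, om (x i) * Z i) (hF.exE hr) (fun σ => by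
      have h3 : om (∑ i, x i * c0 i ⟨σ, hF.le σ.2⟩) = (E r (σ : GK i₀) - 1) * om y := by
        have h4 : ∑ i, x i * c0 i ⟨σ, hF.le σ.2⟩ = (tw r (σ : GK i₀) - 1) * y :=
          hy ⟨σ, hF.le σ.2⟩
        rw [h4, om_mul, om_sub, om_one, ← E_tw]
      rw [om_sum] at h3
      rw [om_mul, om_nat, om_sum, Finset.mul_sum, mul_add, mul_left_comm (E r (σ : GK i₀) - 1),
        ← h3, Finset.mul_sum, Finset.mul_sum, ← Finset.sum_add_distrib]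
      refine Finset.sum_congr rfl fun i _ => ?_
      have h2 := hZ i σ σ.2 (hF.le σ.2)
      have h2' : ((3 ^ Fintype.card (B ⊕ C) : ℕ) : Om) * om (c i σ) = _ := h2
      rw [om_mul, om_mul, mul_left_comm, h2']
      ring)
  obtain ⟨y', hy'⟩ := hcb
  refine ⟨fun i => d * ((3 ^ Fintype.card (B ⊕ C) : ℕ) : ℤ_[3]) * x i, ⟨i₁, ?_⟩, y',
    fun σ => ?_⟩
  · exact mul_ne_zero (mul_ne_zero hd (pow3_ne _)) hx
  · have h5 : d * (((3 ^ Fintype.card (B ⊕ C) : ℕ) : ℤ_[3]) * ∑ i, x i * c i σ) =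
      (tw r (σ : GK i₀) - 1) * y' := hy' σ
    rw [← h5, Finset.mul_sum, Finset.mul_sum]
    refine Finset.sum_congr rfl fun i _ => ?_
    ring

/-- **stability of the ranks** in the intermediate fields -/
theorem rl_iff (hF : Fd hi H0 H a) (hr : r ≠ 0) {N : Subgroup (GK i₀)} (h1 : H ≤ N) (h2 : N ≤ H0)
    (m : ℕ) : RL N r m ↔ RL H0 r m := by
  have hE := hF.exE hr
  constructor
  · refine rl_dn h2 (fun g _ h hh => hF.nor h1 g h hh) ?_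
    obtain ⟨h, hh, hh'⟩ := hE
    exact ⟨h, h1 hh, hh'⟩
  · intro h
    exact rl_dn h1 (fun g _ h hh => hF.nor le_rfl g h hh) hE (rl_up hF hr h)

/-- **stability of the vanishing** in the intermediate fields -/
theorem sz_iff (hF : Fd hi H0 H a) (hr : r ≠ 0) {N : Subgroup (GK i₀)} (h1 : H ≤ N) (h2 : N ≤ H0) :
    SZ N r ↔ SZ H0 r := by
  have hE := hF.exE hr
  constructor
  · refine sz_dn h2 (fun g _ h hh => hF.nor h1 g h hh) ?_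
    obtain ⟨h, hh, hh'⟩ := hE
    exact ⟨h, h1 hh, hh'⟩
  · intro h
    exact sz_dn h1 (fun g _ h hh => hF.nor le_rfl g h hh) hE (sz_up hF hr h)

end up

end Run7.h707.TH
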