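import Pool.Agent.N848.Sch.F

/-!
# The transform for elementary abelian extensions

Adapted from `Pool/Agent/N848/Sch/E.lean` and `F.lean` (cyclic extensions).
-/

set_option autoImplicit false
set_option linter.unusedSectionVars false

namespace Run7.h707.TH

open Pool.Agent.N848.Sch
open Pool.Agent.Y692.QS
open Pool.Agent.Y715.T.Gi Pool.Agent.Y715.T.Nr Pool.Agent.Y715.T.Red Pool.Agent.Y715.T.Df
open Pool.Agent.Y715.T.Sel

variable {i₀ : QB}

section transform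

variable {I : Type} [Fintype I] [DecidableEq I]

/-- the pairing -/
def ip {I : Type} [Fintype I] (x y : I → ZMod 3) : ZMod 3 := ∑ k, x k * y k

lemma ip_add_left (x x' y : I → ZMod 3) : ip (x + x') y = ip x y + ip x' y := by
  unfold ip
  rw [← Finset.sum_add_distrib]
  exact Finset.sum_congr rfl fun k _ => by rw [Pi.add_apply]; ring

lemma ip_comm (x y : I → ZMod 3) : ip x y = ip y x := by
  unfold ip
  exact Finset.sum_congr rfl fun k _ => by ring

lemma ip_add_right (x y y' : I → ZMod 3) : ip x (y + y') = ip x y + ip x y' := by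
  rw [ip_comm, ip_add_left, ip_comm y, ip_comm y']

lemma ip_zero_right (x : I → ZMod 3) : ip x 0 = 0 := by
  unfold ip
  exact Finset.sum_eq_zero fun k _ => by rw [Pi.zero_apply, mul_zero]

lemma ip_zero_left (x : I → ZMod 3) : ip 0 x = 0 := by rw [ip_comm, ip_zero_right]

lemma ip_neg_right (x y : I → ZMod 3) : ip x (-y) = -ip x y := by
  have h := ip_add_right x y (-y)
  rw [add_neg_cancel, ip_zero_right] at h
  exact (neg_eq_of_add_eq_zero_right h.symm).symm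

/-- orthogonality -/
theorem orth {ζ : Om} (hζ : IsPrimitiveRoot ζ 3) {x : I → ZMod 3} (hx : x ≠ 0) :
    ∑ y : I → ZMod 3, zt ζ (-ip x y) = 0 := by
  obtain ⟨k, hk⟩ := Function.ne_iff.1 hx
  set s : I → ZMod 3 := Pi.single k 1 with hs
  have hip : ip x s = x k := by
    unfold ip
    rw [Finset.sum_eq_single k]
    · rw [hs, Pi.single_eq_same, mul_one]
    · intro l _ hl
      rw [hs, Pi.single_eq_of_ne hl, mul_zero]
    · intro h
      exact absurd (Finset.mem_univ k) h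
  have h1 : zt ζ (-(x k)) * ∑ y : I → ZMod 3, zt ζ (-ip x y) = ∑ y : I → ZMod 3, zt ζ (-ip x y) := by
    rw [Finset.mul_sum, ← Equiv.sum_comp (Equiv.addRight s) fun y => zt ζ (-ip x y)]
    refine Finset.sum_congr rfl fun y _ => ?_
    rw [← zt_add hζ.pow_eq_one, Equiv.coe_addRight, ip_add_right, hip]
    congr 1
    ring
  have h2 : (zt ζ (-(x k)) - 1) * ∑ y : I → ZMod 3, zt ζ (-ip x y) = 0 := by
    rw [sub_mul, h1, one_mul, sub_self]
  exact (mul_eq_zero.1 h2).resolve_left (sub_ne_zero.2 (zt_ne_one hζ (neg_ne_zero.2 hk)))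

lemma orth_zero (ζ : Om) : ∑ y : I → ZMod 3, zt ζ (-ip (0 : I → ZMod 3) y) =
    ((3 ^ Fintype.card I : ℕ) : Om) := by
  simp only [ip_zero_left, neg_zero, zt_zero]
  rw [Finset.sum_const, Finset.card_univ, Fintype.card_fun, ZMod.card, nsmul_eq_mul, mul_one]

variable {a : GK i₀ → (I → ZMod 3)} {T : (I → ZMod 3) → GK i₀} {r : ℤ} {ct : GK i₀ → Om} {ζ : Om}

lemma aA_one (ha : ∀ σ τ, a (σ * τ) = a σ + a τ) : a 1 = 0 := by
  have h := ha 1 1
  rw [mul_one] at h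
  exact left_eq_add.1 h

lemma aA_inv (ha : ∀ σ τ, a (σ * τ) = a σ + a τ) (σ : GK i₀) : a σ⁻¹ = -a σ := by
  have h := ha σ σ⁻¹
  rw [mul_inv_cancel, aA_one ha] at h
  exact (neg_eq_of_add_eq_zero_right h.symm).symm

lemma aA_cube (ha : ∀ σ τ, a (σ * τ) = a σ + a τ) (σ : GK i₀) : a (σ ^ 3) = 0 := by
  have e : σ ^ 3 = σ * σ * σ := pow_three' σ
  rw [e, ha, ha]
  funext k
  show a σ k + a σ k + a σ k = 0
  generalize a σ k = c
  revert c
  decide

/-- the character `ε ^ r ζ ^ (- j a)` -/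
noncomputable def rhoA (ζ : Om) (a : GK i₀ → (I → ZMod 3)) (r : ℤ) (j : I → ZMod 3) (g : GK i₀) :
    Om := zt ζ (-ip j (a g)) * E r g

lemma rhoA_mul (hζ : ζ ^ 3 = 1) (ha : ∀ σ τ, a (σ * τ) = a σ + a τ) (j : I → ZMod 3)
    (g h : GK i₀) : rhoA ζ a r j (g * h) = rhoA ζ a r j g * rhoA ζ a r j h := by
  unfold rhoA
  rw [ha, E_mul, ip_add_right, neg_add, zt_add hζ]
  ring

lemma rhoA_ker {j : I → ZMod 3} {g : GK i₀} (hg : ip j (a g) = 0) : rhoA ζ a r j g = E r g := by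
  unfold rhoA
  rw [hg, neg_zero, zt_zero, one_mul]

/-- the component of the induced cocycle -/
noncomputable def cA (ζ : Om) (a : GK i₀ → (I → ZMod 3)) (T : (I → ZMod 3) → GK i₀) (r : ℤ)
    (ct : GK i₀ → Om) (j : I → ZMod 3) (g : GK i₀) : Om :=
  ∑ i : I → ZMod 3, zt ζ (-ip i j) * E r (T i) * ct ((T i)⁻¹ * g * T (i - a g))

theorem cA_mul (hζ : ζ ^ 3 = 1) (ha : ∀ σ τ, a (σ * τ) = a σ + a τ) (hT : ∀ i, a (T i) = i)
    (hct : ∀ σ τ, a σ = 0 → a τ = 0 → ct (σ * τ) = ct σ + E r σ * ct τ) (j : I → ZMod 3)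
    (g h : GK i₀) :
    cA ζ a T r ct j (g * h) = cA ζ a T r ct j g + rhoA ζ a r j g * cA ζ a T r ct j h := by
  have e1 : ∀ i : I → ZMod 3, ct ((T i)⁻¹ * (g * h) * T (i - a (g * h))) =
      ct ((T i)⁻¹ * g * T (i - a g)) + E r ((T i)⁻¹ * g * T (i - a g)) *
        ct ((T (i - a g))⁻¹ * h * T (i - a g - a h)) := by
    intro i
    rw [← hct]
    · congr 1
      rw [ha, ← sub_sub]
      group
    · rw [ha, ha, aA_inv ha, hT, hT]
      abel
    · rw [ha, ha, aA_inv ha, hT, hT]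
      abel
  have e2 : ∀ i : I → ZMod 3, zt ζ (-ip i j) * E r (T i) *
      ct ((T i)⁻¹ * (g * h) * T (i - a (g * h))) =
      zt ζ (-ip i j) * E r (T i) * ct ((T i)⁻¹ * g * T (i - a g)) +
      E r g * (zt ζ (-ip i j) * E r (T (i - a g)) *
        ct ((T (i - a g))⁻¹ * h * T (i - a g - a h))) := by
    intro i
    rw [e1, E_mul, E_mul]
    have h1 : E r (T i) * E r (T i)⁻¹ = 1 := by rw [← E_mul, mul_inv_cancel, E_one]
    linear_combination (zt ζ (-ip i j) * E r g * E r (T (i - a g)) *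
      ct ((T (i - a g))⁻¹ * h * T (i - a g - a h))) * h1
  unfold cA
  rw [Finset.sum_congr rfl fun i _ => e2 i, Finset.sum_add_distrib]
  congr 1
  rw [← Finset.mul_sum, ← Equiv.sum_comp (Equiv.addRight (a g)) fun i => zt ζ (-ip i j) *
    E r (T (i - a g)) * ct ((T (i - a g))⁻¹ * h * T (i - a g - a h))]
  rw [Finset.mul_sum, Finset.mul_sum]
  refine Finset.sum_congr rfl fun i _ => ?_
  rw [Equiv.coe_addRight, add_sub_cancel_right]
  have h2 : zt ζ (-ip (i + a g) j) = zt ζ (-ip i j) * zt ζ (-ip j (a g)) := by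
    rw [← zt_add hζ, ip_add_left, ip_comm (a g) j, neg_add]
  rw [h2]
  unfold rhoA
  ring

/-- the component at the elements of the kernel -/
lemma cA_ker {j : I → ZMod 3} {g : GK i₀} (hg : a g = 0) : cA ζ a T r ct j g =
    ∑ i : I → ZMod 3, zt ζ (-ip i j) * E r (T i) * ct ((T i)⁻¹ * g * T i) := by
  unfold cA
  rw [hg]
  simp only [sub_zero]

/-- inversion -/
theorem cA_sum (hζ : IsPrimitiveRoot ζ 3) (hT0 : T 0 = 1) {g : GK i₀} (hg : a g = 0) :
    ∑ j : I → ZMod 3, cA ζ a T r ct j g = ((3 ^ Fintype.card I : ℕ) : Om) * ct g := by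
  have h1 : ∑ j : I → ZMod 3, cA ζ a T r ct j g =
      ∑ i : I → ZMod 3, (∑ j : I → ZMod 3, zt ζ (-ip i j)) *
        (E r (T i) * ct ((T i)⁻¹ * g * T i)) := by
    simp only [cA_ker hg]
    rw [Finset.sum_comm]
    refine Finset.sum_congr rfl fun i _ => ?_
    rw [Finset.sum_mul]
    refine Finset.sum_congr rfl fun j _ => ?_
    ring
  rw [h1, Finset.sum_eq_single 0]
  · rw [orth_zero, hT0, E_one, inv_one, one_mul, one_mul, mul_one]
  · intro i _ hi
    rw [orth hζ hi, zero_mul]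
  · intro h
    exact absurd (Finset.mem_univ _) h

lemma cA_cont (hlc : IsLocallyConstant a) (hct : Continuous ct) (j : I → ZMod 3) :
    Continuous (cA ζ a T r ct j) := by
  unfold cA
  refine continuous_finsetSum _ fun i _ => ?_
  refine continuous_const.mul (hct.comp ?_)
  refine (continuous_const.mul continuous_id).mul ?_
  exact (hlc.comp fun x => T (i - x)).continuous

lemma cA_mem (hct : ∀ g, ct g ∈ Fz ζ) (j : I → ZMod 3) (g : GK i₀) :
    cA ζ a T r ct j g ∈ Fz ζ := by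
  unfold cA
  exact sum_mem fun i _ => mul_mem (mul_mem (zt_mem _) (E_mem _ _ _)) (hct _)

lemma rhoA_mem (j : I → ZMod 3) (g : GK i₀) : rhoA ζ a r j g ∈ Fz ζ :=
  mul_mem (zt_mem _) (E_mem _ _ _)

lemma rhoA_cont (hlc : IsLocallyConstant a) (j : I → ZMod 3) :
    Continuous (rhoA ζ a r j : GK i₀ → Om) := by
  unfold rhoA
  refine Continuous.mul ?_ (E_cont r)
  exact (hlc.comp fun x => zt ζ (-ip j x)).continuous

end transform

section local_

variable {I : Type} [Fintype I] [DecidableEq I]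
variable {a : GK i₀ → (I → ZMod 3)} {T : (I → ZMod 3) → GK i₀} {r : ℤ} {ct : GK i₀ → Om} {ζ : Om}

variable (hi : i₀ ^ 2 + i₀ + 1 = 0) (hζ : IsPrimitiveRoot ζ 3)
  (ha : ∀ σ τ, a (σ * τ) = a σ + a τ) (hT : ∀ i, a (T i) = i)
  (hct : ∀ σ τ, a σ = 0 → a τ = 0 → ct (σ * τ) = ct σ + E r σ * ct τ)
  (H1 : ∀ (p : ℕ) [Fact p.Prime] (ι : QB →ₐ[ℚ] PadicAlgCl p), p ≠ 3 →
    ∀ (τ : Au p) (σ : GK i₀), Cmp ι τ σ → Inert τ → a σ = 0 → ct σ = 0)

include hi hζ ha hT hct in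
/-- the place above three -/
theorem decA_three {ι : QB →ₐ[ℚ] PadicAlgCl 3} {y : (I → ZMod 3) → ℤ_[3]}
    (hy : ∀ i, ∀ (τ : Au 3) (σ : GK i₀), Cmp (ι.comp (gh (T i))) τ σ →
      a σ = 0 → ct σ = (E r σ - 1) * om (y i)) (hr : r ≠ 0) (j : I → ZMod 3) {τ : Au 3}
    {g : GK i₀} (hc : Cmp ι τ g) : cA ζ a T r ct j g = (rhoA ζ a r j g - 1) *
      ∑ i : I → ZMod 3, zt ζ (-ip i j) * E r (T i) * om (y i) := by
  obtain ⟨z, hz⟩ : ∃ z : Om, z = ∑ i : I → ZMod 3, zt ζ (-ip i j) * E r (T i) * om (y i) :=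
    ⟨_, rfl⟩
  rw [← hz]
  have hker : ∀ (τ : Au 3) (g : GK i₀), Cmp ι τ g → a g = 0 →
      cA ζ a T r ct j g = (rhoA ζ a r j g - 1) * z := by
    intro τ g hc hg
    rw [cA_ker hg, rhoA_ker (by rw [hg, ip_zero_right]), hz, Finset.mul_sum]
    refine Finset.sum_congr rfl fun i _ => ?_
    have h1 : a ((T i)⁻¹ * g * T i) = 0 := by
      rw [ha, ha, aA_inv ha, hg]
      abel
    rw [hy i τ _ (cmp_conj hc (T i)) h1, E_conj']
    ring
  obtain ⟨τ₁, σ₁, hc₁, hE⟩ := exists_E_ne hi ι hr (n := 3) (by norm_num)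
  set h := σ₁ ^ 3 with hh
  have hcn := cmp_pow hc₁ 3
  have hah : a h = 0 := by rw [hh, aA_cube ha]
  have hah' : a (g * h * g⁻¹) = 0 := by
    rw [ha, ha, aA_inv ha, hah]
    abel
  have hcmp' : Cmp ι (τ * τ₁ ^ 3 * τ⁻¹) (g * h * g⁻¹) := (hc.mul hcn).mul (cmp_inv hc)
  have h1 := hker _ _ hcn hah
  have h2 := hker _ _ hcmp' hah'
  have hζn := hζ.pow_eq_one
  have h3 := cA_mul (ζ := ζ) (r := r) (ct := ct) hζn ha hT hct j g h
  have h4 := cA_mul (ζ := ζ) (r := r) (ct := ct) hζn ha hT hct j (g * h * g⁻¹) g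
  have e2 : g * h * g⁻¹ * g = g * h := by group
  have e3 : rhoA ζ a r j (g * h * g⁻¹) = E r h := by
    rw [rhoA_ker (by rw [hah', ip_zero_right]), E_conj]
  have e4 : rhoA ζ a r j h = E r h := rhoA_ker (by rw [hah, ip_zero_right])
  rw [e2, h3, h1, h2, e3, e4] at h4
  have h5 : (E r h - 1) * (cA ζ a T r ct j g - (rhoA ζ a r j g - 1) * z) = 0 := by
    linear_combination -h4
  exact sub_eq_zero.1 ((mul_eq_zero.1 h5).resolve_left (sub_ne_zero.2 hE))

include ha H1 in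
lemma cA_inert0 {p : ℕ} [Fact p.Prime] (hp : p ≠ 3) {ι : QB →ₐ[ℚ] PadicAlgCl p} {τ : Au p}
    {σ : GK i₀} (hc : Cmp ι τ σ) (hτ : Inert τ) (hσ : a σ = 0) (j : I → ZMod 3) :
    cA ζ a T r ct j σ = 0 := by
  rw [cA_ker hσ]
  refine Finset.sum_eq_zero fun i _ => ?_
  have h1 : a ((T i)⁻¹ * σ * T i) = 0 := by
    rw [ha, ha, aA_inv ha, hσ]
    abel
  rw [H1 p _ hp τ _ (cmp_conj hc (T i)) hτ h1, mul_zero]

lemma rhoA_inert {p : ℕ} [Fact p.Prime] (hp : p ≠ 3) {ι : QB →ₐ[ℚ] PadicAlgCl p} {τ : Au p}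
    {σ : GK i₀} (hc : Cmp ι τ σ) (hτ : Inert τ) (j : I → ZMod 3) :
    rhoA ζ a r j σ = zt ζ (-ip j (a σ)) := by
  unfold rhoA
  rw [E_inert hp hc hτ, mul_one]

include hζ ha hT hct H1 in
/-- on the inertia groups, where the character is trivial -/
lemma cA_inert {p : ℕ} [Fact p.Prime] (hp : p ≠ 3) {ι : QB →ₐ[ℚ] PadicAlgCl p} {τ : Au p}
    {σ : GK i₀} (hc : Cmp ι τ σ) (hτ : Inert τ) {j : I → ZMod 3} (hσ : ip j (a σ) = 0) :
    cA ζ a T r ct j σ = 0 := by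
  have hρ : ∀ m : ℕ, rhoA ζ a r j (σ ^ m) = 1 := by
    intro m
    induction m with
    | zero =>
      rw [pow_zero]
      unfold rhoA
      rw [aA_one ha, ip_zero_right, neg_zero, zt_zero, E_one, one_mul]
    | succ m ih =>
      have e : σ ^ (m + 1) = σ ^ m * σ := pow_succ σ m
      rw [e, rhoA_mul hζ.pow_eq_one ha, ih, one_mul, rhoA_inert hp hc hτ, hσ, neg_zero, zt_zero]
  have h0 : cA ζ a T r ct j 1 = 0 := by
    have h := cA_mul (ζ := ζ) (r := r) (ct := ct) hζ.pow_eq_one ha hT hct j 1 1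
    rw [mul_one] at h
    have h2 := hρ 0
    rw [pow_zero] at h2
    rw [h2, one_mul] at h
    exact left_eq_add.1 h
  have h1 : ∀ m : ℕ, cA ζ a T r ct j (σ ^ m) = m * cA ζ a T r ct j σ := by
    intro m
    induction m with
    | zero => rw [pow_zero, Nat.cast_zero, zero_mul, h0]
    | succ m ih =>
      have e : σ ^ (m + 1) = σ ^ m * σ := pow_succ σ m
      rw [e, cA_mul hζ.pow_eq_one ha hT hct, ih, hρ m]
      push_cast
      ring
  have h2 := h1 3
  rw [cA_inert0 ha H1 hp (cmp_pow hc _) (inert_pow hτ _) (aA_cube ha σ)] at h2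
  rcases mul_eq_zero.1 h2.symm with h5 | h5
  · exfalso
    exact three_ne_zero (by exact_mod_cast h5)
  · exact h5

lemma rhoA_sub_lt (hi : i₀ ^ 2 + i₀ + 1 = 0) (hζ : IsPrimitiveRoot ζ 3) (j : I → ZMod 3)
    (g : GK i₀) : ‖rhoA ζ a r j g - 1‖ < 1 := by
  unfold rhoA
  have h1 : (zt ζ (-ip j (a g))) ^ 3 ^ 1 = 1 := by
    unfold Pool.Agent.N848.Sch.zt
    rw [pow_one, ← pow_mul, mul_comm, pow_mul, hζ.pow_eq_one, one_pow]
  have e : zt ζ (-ip j (a g)) * E r g - 1 =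
      (zt ζ (-ip j (a g)) - 1) + zt ζ (-ip j (a g)) * (E r g - 1) := by ring
  rw [e]
  exact add_lt (root_lt h1) (mul_lt (root_norm h1).le (E_sub_lt hi r g))

end local_

end Run7.h707.TH
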