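import Pool.Agent.N848.Sch.G
import Pool.Agent.Run7.h707.TH.Tr
import Pool.Agent.Run7.h707.TH.Ker

/-!
# The vanishing theorem for a cubic character

Adapted from `Pool/Agent/N848/Sch/F.lean` and `G.lean`.
-/

set_option autoImplicit false
set_option linter.unusedSectionVars false

namespace Run7.h707.TH

open Pool.Agent.N848.Sch
open Pool.Agent.Y692.QS
open Pool.Agent.Y715.T.Gi Pool.Agent.Y715.T.Nr Pool.Agent.Y715.T.Red Pool.Agent.Y715.T.Df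
open Pool.Agent.Y715.T.Sel
open Pool.Agent.Y715.T.Rec (cs)
open Pool.Agent.Y715.T.RecG (Pq)
open Pool.Agent.N883.FF (KerB pB nq isUnit_w)

variable {i₀ : QB} {r : ℤ} {ζ : Om} {χ : GK i₀ → ZMod 3}

/-- the character `ε ^ r ζ ^ (- χ)` -/
noncomputable def rh (ζ : Om) (χ : GK i₀ → ZMod 3) (r : ℤ) (g : GK i₀) : Om :=
  Pool.Agent.N848.Sch.zt ζ (-χ g) * E r g

lemma rh_mul (hζ : ζ ^ 3 = 1) (ha : ∀ σ τ, χ (σ * τ) = χ σ + χ τ) (g h : GK i₀) :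
    rh ζ χ r (g * h) = rh ζ χ r g * rh ζ χ r h := by
  unfold rh
  rw [ha, E_mul, neg_add, zt_add hζ]
  ring

lemma rh_inert {p : ℕ} [Fact p.Prime] (hp : p ≠ 3) {ι : QB →ₐ[ℚ] PadicAlgCl p} {τ : Au p}
    {σ : GK i₀} (hc : Cmp ι τ σ) (hτ : Inert τ) :
    rh ζ χ r σ = Pool.Agent.N848.Sch.zt ζ (-χ σ) := by
  unfold rh
  rw [E_inert hp hc hτ, mul_one]

lemma rh_sub_lt (hi : i₀ ^ 2 + i₀ + 1 = 0) (hζ : IsPrimitiveRoot ζ 3) (g : GK i₀) :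
    ‖rh ζ χ r g - 1‖ < 1 := by
  unfold rh
  have h1 : (Pool.Agent.N848.Sch.zt ζ (-χ g)) ^ 3 ^ 1 = 1 := by
    unfold Pool.Agent.N848.Sch.zt
    rw [pow_one, ← pow_mul, mul_comm, pow_mul, hζ.pow_eq_one, one_pow]
  have e : Pool.Agent.N848.Sch.zt ζ (-χ g) * E r g - 1 =
      (Pool.Agent.N848.Sch.zt ζ (-χ g) - 1) + Pool.Agent.N848.Sch.zt ζ (-χ g) * (E r g - 1) := by
    ring
  rw [e]
  exact add_lt (root_lt h1) (mul_lt (root_norm h1).le (E_sub_lt hi r g))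

lemma hom_one (ha : ∀ σ τ, χ (σ * τ) = χ σ + χ τ) : χ 1 = 0 := by
  have h := ha 1 1
  rw [mul_one] at h
  exact left_eq_add.1 h

lemma hom_inv (ha : ∀ σ τ, χ (σ * τ) = χ σ + χ τ) (σ : GK i₀) : χ σ⁻¹ = -χ σ := by
  have h := ha σ σ⁻¹
  rw [mul_inv_cancel, hom_one ha] at h
  exact (neg_eq_of_add_eq_zero_right h.symm).symm

/-- cocycles on the decomposition group of a ramified prime -/
theorem dec_ram3 (hζ : IsPrimitiveRoot ζ 3) (ha : ∀ σ τ, χ (σ * τ) = χ σ + χ τ)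
    {c : GK i₀ → Om}
    (hc : ∀ g h, c (g * h) = c g + rh ζ χ r g * c h) {p : ℕ} [Fact p.Prime] (hp : p ≠ 3)
    {ι : QB →ₐ[ℚ] PadicAlgCl p}
    (h0 : ∀ (τ : Au p) (σ : GK i₀), Cmp ι τ σ → Inert τ → χ σ = 0 → c σ = 0)
    {τ₁ : Au p} {σ₁ : GK i₀} (hc₁ : Cmp ι τ₁ σ₁) (hτ₁ : Inert τ₁) (hu : χ σ₁ ≠ 0) :
    rh ζ χ r σ₁ ≠ 1 ∧ ∃ z : Om, ∀ (τ : Au p) (g : GK i₀), Cmp ι τ g →
      c g = (rh ζ χ r g - 1) * z := by
  have hne : rh ζ χ r σ₁ ≠ 1 := by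
    rw [rh_inert hp hc₁ hτ₁]
    exact zt_ne_one hζ (neg_ne_zero.2 hu)
  have hρm := rh_mul (r := r) hζ.pow_eq_one ha
  refine ⟨hne, c σ₁ / (rh ζ χ r σ₁ - 1), fun τ g hg => ?_⟩
  set z := c σ₁ / (rh ζ χ r σ₁ - 1) with hz
  have hz1 : c σ₁ = (rh ζ χ r σ₁ - 1) * z := by
    rw [hz, mul_div_cancel₀ _ (sub_ne_zero.2 hne)]
  -- the conjugate of `σ₁`
  set h := σ₁⁻¹ * (g * σ₁ * g⁻¹) with hh
  have hch : Cmp ι (τ₁⁻¹ * (τ * τ₁ * τ⁻¹)) h := (cmp_inv hc₁).mul ((hg.mul hc₁).mul (cmp_inv hg))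
  have hih : Inert (τ₁⁻¹ * (τ * τ₁ * τ⁻¹)) := inert_mul (inert_inv hτ₁) (inert_conj hτ₁ τ)
  have hah : χ h = 0 := by
    rw [hh, ha, ha, ha, hom_inv ha, hom_inv ha]
    ring
  have h1 := h0 _ _ hch hih hah
  have e1 : g * σ₁ = σ₁ * h * g := by rw [hh]; group
  have h2 : c (g * σ₁) = c (σ₁ * h * g) := by rw [e1]
  have e2 : rh ζ χ r h = 1 := by
    rw [rh_inert hp hch hih, hah, neg_zero, zt_zero]
  rw [hc, hc, hc, h1, hρm, e2, mul_zero, add_zero, mul_one, hz1] at h2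
  have h3 : (rh ζ χ r σ₁ - 1) * (c g - (rh ζ χ r g - 1) * z) = 0 := by
    linear_combination -h2
  exact sub_eq_zero.1 ((mul_eq_zero.1 h3).resolve_left (sub_ne_zero.2 hne))

/-- the residue of a cocycle at a ramified prime -/
theorem res_ram3 (hi : i₀ ^ 2 + i₀ + 1 = 0) (hζ : IsPrimitiveRoot ζ 3)
    {c : GK i₀ → Om} (hc1 : ∀ g, ‖c g‖ ≤ 1) {p : ℕ} [Fact p.Prime]
    (hp : p ≠ 3) {ι : QB →ₐ[ℚ] PadicAlgCl p} {τ₁ : Au p} {σ₁ : GK i₀} (hc₁ : Cmp ι τ₁ σ₁)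
    (hτ₁ : Inert τ₁) (hu : χ σ₁ ≠ 0) (hne : rh ζ χ r σ₁ ≠ 1) {z : Om}
    (hz : ∀ (τ : Au p) (g : GK i₀), Cmp ι τ g → c g = (rh ζ χ r g - 1) * z)
    {τ : Au p} {g : GK i₀} (hg : Cmp ι τ g) :
    ‖c g - (((χ g * (χ σ₁)⁻¹).val : ℕ) : Om) * c σ₁‖ < 1 := by
  set m : ℕ := (χ g * (χ σ₁)⁻¹).val with hm
  have hm' : (m : ZMod 3) * χ σ₁ = χ g := by
    rw [hm, ZMod.natCast_zmod_val, mul_assoc, inv_mul_cancel₀ hu, mul_one]
  set ξ := rh ζ χ r σ₁ with hξ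
  have hξ' : ξ = Pool.Agent.N848.Sch.zt ζ (-(χ σ₁)) := rh_inert hp hc₁ hτ₁
  have hξn : ξ ^ 3 ^ 1 = 1 := by
    rw [hξ']
    unfold Pool.Agent.N848.Sch.zt
    rw [pow_one, ← pow_mul, mul_comm, pow_mul, hζ.pow_eq_one, one_pow]
  have hzm : ∀ l : ℕ, Pool.Agent.N848.Sch.zt ζ (-((l : ZMod 3) * χ σ₁)) = ξ ^ l := by
    intro l
    induction l with
    | zero => rw [Nat.cast_zero, zero_mul, neg_zero, zt_zero, pow_zero]
    | succ l ih =>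
      have e0 : -(((l + 1 : ℕ) : ZMod 3) * χ σ₁) = -((l : ZMod 3) * χ σ₁) + -(χ σ₁) := by
        push_cast
        ring
      rw [e0, zt_add hζ.pow_eq_one, ih, ← hξ', pow_succ ξ l]
  have hρg : rh ζ χ r g = ξ ^ m * E r g := by
    unfold rh
    rw [← hm', hzm]
  have hn1 : ‖ξ‖ = 1 := root_norm hξn
  have hgt : 1 / 3 < ‖ξ - 1‖ := root_gt hξn hne
  have hcs : ‖(ξ - 1) * z‖ ≤ 1 := by
    rw [← hz τ₁ σ₁ hc₁]
    exact hc1 σ₁
  have hzn : ‖z‖ < 3 := by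
    rw [norm_mul] at hcs
    by_contra hcon
    push Not at hcon
    nlinarith [norm_nonneg z]
  rw [hz τ g hg, hz τ₁ σ₁ hc₁, hρg, ← hξ]
  have e : (ξ ^ m * E r g - 1) * z - (m : Om) * ((ξ - 1) * z) =
      ((ξ - 1) * z) * (∑ i ∈ Finset.range m, (ξ ^ i - 1)) + ξ ^ m * ((E r g - 1) * z) := by
    have h1 : (ξ - 1) * ∑ i ∈ Finset.range m, ξ ^ i = ξ ^ m - 1 := by
      rw [mul_comm, geom_sum_mul]
    have h2 : ∑ i ∈ Finset.range m, (ξ ^ i - 1) = (∑ i ∈ Finset.range m, ξ ^ i) - m := by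
      rw [Finset.sum_sub_distrib]
      simp
    rw [h2]
    linear_combination -z * h1
  rw [e]
  refine add_lt ?_ ?_
  · refine mul_lt hcs ?_
    have h3 : ∀ i : ℕ, ‖ξ ^ i - 1‖ < 1 := by
      intro i
      apply root_lt (m := 1)
      rw [← pow_mul, mul_comm, pow_mul, hξn, one_pow]
    have h4 : ∀ m : ℕ, ‖∑ i ∈ Finset.range m, (ξ ^ i - 1)‖ < 1 := by
      intro m
      induction m with
      | zero => rw [Finset.sum_range_zero, norm_zero]; exact one_pos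
      | succ m ih => rw [Finset.sum_range_succ]; exact add_lt ih (h3 m)
    exact h4 m
  · rw [norm_mul, norm_pow, hn1, one_pow, one_mul, norm_mul]
    have h5 := E_sub hi r g
    have h6 := norm_nonneg z
    nlinarith [norm_nonneg (E r g - 1)]

/-- the characters of the elements with small kernel -/
inductive Gd (hi : i₀ ^ 2 + i₀ + 1 = 0) (χ : GK i₀ → ZMod 3) : Prop
  | unit (J : Type) [Fintype J] [DecidableEq J] (π : J → Ei) (e : J → ZMod 3) (i : ZMod 3)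
      (hπ : PP π) (he : ∀ j, e j ≠ 0) (hker : KerB π e i)
      (hχ : Kc hi (w ^ i.val * ∏ j, π j ^ (e j).val) χ)
  | one (J : Type) [Fintype J] [DecidableEq J] (π : J → Ei) (e : J → ZMod 3)
      (hπ : PP π) (he : ∀ j, e j ≠ 0)
      (hker : ∀ v : J → ZMod 3, (∀ j, ∑ i, e i * cs (π j) (π i) * (v i - v j) = 0) →
        ∀ i j, v i = v j)
      (hχ : Kc hi (∏ j, π j ^ (e j).val) χ)
      (h4 : ∀ ι₃ : QB →ₐ[ℚ] PadicAlgCl 3, ∃ (τ : Au 3) (σ : GK i₀), Cmp ι₃ τ σ ∧ χ σ ≠ 0)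
  | triv (h : ∀ σ, χ σ = 0)

/-- Kummer characters of units are unramified -/
lemma unr_kc {hi : i₀ ^ 2 + i₀ + 1 = 0} {h : GK i₀ → ZMod 3} {z : Ei} (hz0 : z ≠ 0)
    (hzh : Kc hi z h) {p : ℕ} [Fact p.Prime] (hp3 : p ≠ 3)
    (ι : QB →ₐ[ℚ] PadicAlgCl p) (hl : ¬ ‖ι (ev i₀ hi z)‖ < 1) {τ : Au p} {σ : GK i₀}
    (hc : Cmp ι τ σ) (hτ : Inert τ) : h σ = 0 := by
  rw [iota_ev] at hl
  obtain ⟨s, hs⟩ := ex_root (ev i₀ hi z)
  have h1 : τ (ι s) = ι s :=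
    fix_of_unit (iota_sq hi ι) hp3 (z := z) (by rw [← map_pow, hs, iota_ev]) hl hτ hc.fix
  rw [hc] at h1
  have h2 : σ s = s := ι.injective h1
  have h3 := hzh s hs σ
  rw [h2] at h3
  have h4 : i₀ ^ ((0 : ZMod 3)).val = i₀ ^ (h σ).val :=
    mul_right_cancel₀ (root_ne hz0 hs) (by rw [← h3, ZMod.val_zero, pow_zero, one_mul])
  exact (i₀_inj (hi := hi) h4).symm

lemma norm_ev_w {hi : i₀ ^ 2 + i₀ + 1 = 0} {p : ℕ} [Fact p.Prime]
    (ι : QB →ₐ[ℚ] PadicAlgCl p) : ‖ι (ev i₀ hi w)‖ = 1 := by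
  rw [iota_ev]
  obtain ⟨v, hv⟩ := isUnit_w.exists_right_inv
  have h1 := ev_le (iota_sq hi ι) w
  have h2 := ev_le (iota_sq hi ι) v
  have h3 : ‖ev (ι i₀) (iota_sq hi ι) w‖ * ‖ev (ι i₀) (iota_sq hi ι) v‖ = 1 := by
    rw [← norm_mul, ← map_mul, hv, map_one, norm_one]
  nlinarith [norm_nonneg (ev (ι i₀) (iota_sq hi ι) w)]

lemma norm_prod_one {hi : i₀ ^ 2 + i₀ + 1 = 0} {p : ℕ} [Fact p.Prime]
    (ι : QB →ₐ[ℚ] PadicAlgCl p) {J : Type} [Fintype J] {π : J → Ei}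
    (hnd : ∀ j, ¬ ‖ι (ev i₀ hi (π j))‖ < 1) (n : ℕ) (x : J → ℕ) :
    ¬ ‖ι (ev i₀ hi (w ^ n * ∏ j, π j ^ x j))‖ < 1 := by
  have h1 : ∀ j, ‖ι (ev i₀ hi (π j))‖ = 1 := by
    intro j
    have := hnd j
    rw [iota_ev] at this ⊢
    exact eq_one_of_not_lt (iota_sq hi ι) this
  rw [map_mul, map_mul, norm_mul, map_pow, map_pow, norm_pow, norm_ev_w, one_pow, one_mul,
    map_prod, map_prod, norm_prod]
  have h2 : ∏ j, ‖ι (ev i₀ hi (π j ^ x j))‖ = 1 := by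
    refine Finset.prod_eq_one fun j _ => ?_
    rw [map_pow, map_pow, norm_pow, h1, one_pow]
  rw [h2]
  exact lt_irrefl _

/-- **the vanishing theorem** -/
theorem van {hi : i₀ ^ 2 + i₀ + 1 = 0} (hζ : IsPrimitiveRoot ζ 3)
    (ha : ∀ σ τ, χ (σ * τ) = χ σ + χ τ) {c : GK i₀ → Om} (hcoc : Coc (rh ζ χ r) c)
    (hcF : ∀ g, c g ∈ Fz ζ)
    (hin : ∀ (p : ℕ) [Fact p.Prime] (ι : QB →ₐ[ℚ] PadicAlgCl p), p ≠ 3 →
      ∀ (τ : Au p) (σ : GK i₀), Cmp ι τ σ → Inert τ → χ σ = 0 → c σ = 0)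
    (ι₃ : QB →ₐ[ℚ] PadicAlgCl 3) (h3 : ∀ (τ : Au 3) (σ : GK i₀), Cmp ι₃ τ σ → c σ = 0)
    (hG : Gd hi χ) (g : GK i₀) : c g = 0 := by
  by_contra hcon
  have hζ' : IsPrimitiveRoot ζ (3 ^ (0 + 1)) := by simpa using hζ
  obtain ⟨u, ψ, hu, hle, hval, hex, hψlc, hψm, g₁, hg₁⟩ := residue_hom (RF_Fz hζ')
    (fun g => rh_sub_lt hi hζ g) hcoc hcF ⟨g, hcon⟩
  have hzero : ∀ g, c g = 0 → ψ g = 0 := by
    intro g hg
    have h1 := hval g 0 (by rw [hg, mul_zero, Int.cast_zero, sub_zero, norm_zero]; exact one_pos)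
    rw [h1, Int.cast_zero]
  have hthree : ∀ (τ : Au 3) (σ : GK i₀), Cmp ι₃ τ σ → ψ σ = 0 := fun τ σ hc =>
    hzero _ (h3 τ σ hc)
  -- the ramified places
  have hram : ∀ (p : ℕ) [Fact p.Prime] (ι : QB →ₐ[ℚ] PadicAlgCl p), p ≠ 3 →
      ∀ (τ₁ : Au p) (σ₁ : GK i₀), Cmp ι τ₁ σ₁ → Inert τ₁ → χ σ₁ ≠ 0 →
      ∃ t : ZMod 3, ∀ (τ : Au p) (σ : GK i₀), Cmp ι τ σ → ψ σ = t * χ σ := by
    intro p _ ι hp τ₁ σ₁ hc₁ hτ₁ hχ0
    obtain ⟨hne, z', hz'⟩ := dec_ram3 hζ ha hcoc.mul hp (ι := ι)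
      (fun τ σ hcmp hi' h0 => hin p ι hp τ σ hcmp hi' h0) hc₁ hτ₁ hχ0
    obtain ⟨n, hn⟩ := hex σ₁
    have hψ₁ := hval σ₁ n hn
    refine ⟨(χ σ₁)⁻¹ * ψ σ₁, fun τ σ hcmp => ?_⟩
    have h5 := res_ram3 (c := fun g => u * c g) hi hζ hle hp hc₁ hτ₁ hχ0 hne (z := u * z')
      (fun τ g hg => by
        show u * c g = _
        rw [hz' τ g hg]
        ring) hcmp
    have h6 := norm_mul_sub_lt h5 hn
    have h7 := hval σ _ h6
    rw [h7, hψ₁]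
    push_cast
    rw [ZMod.natCast_zmod_val]
    ring
  apply hg₁
  cases hG with
  | unit J π e i hπ he hker hχ =>
    refine kfinB (hi := hi) hπ he hker hχ hψlc hψm ?_ ?_ ι₃ hthree g₁
    · intro p _ ι hp hnd τ σ hcmp hin'
      refine hzero _ (hin p ι hp τ σ hcmp hin' ?_)
      refine unr_kc ?_ hχ hp ι (norm_prod_one ι hnd _ _) hcmp hin'
      exact mul_ne_zero (pow_ne_zero _ isUnit_w.ne_zero)
        (Finset.prod_ne_zero_iff.2 fun j _ => pow_ne_zero _ (hπ.p0 j))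
    · intro j' p _ ι hp hsm
      obtain ⟨τ₁, σ₁, c₁, hc₁, hτ₁, hc0, hs₁⟩ := exists_ram (hi := hi) (hπ.pq j').prime hp ι hsm
      have split : ∏ i, π i ^ (e i).val =
          (∏ i ∈ Finset.univ.erase j', π i ^ (e i).val) * π j' ^ (e j').val := by
        rw [← Finset.mul_prod_erase Finset.univ (fun i => π i ^ (e i).val) (Finset.mem_univ j')]
        ring
      have hndwp : ∀ k : ℕ, ¬ π j' ∣ w ^ k := fun k hd =>
        (hπ.pq j').prime.not_isUnit (isUnit_of_dvd_unit hd (isUnit_w.pow k))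
      have hχ₁ : χ σ₁ = e j' * c₁ := by
        have := ram_exp' (w := w ^ i.val * ∏ i ∈ Finset.univ.erase j', π i ^ (e i).val)
          (x := (e j').val) (hπ.pq j').prime
          (fun hd => ((hπ.pq j').prime.dvd_or_dvd hd).elim (hndwp _)
            (hπ.not_dvd_prod j' (fun j => (e j).val))) (by
            rw [mul_assoc, ← split]
            exact hχ) hp ι hsm hc₁ hτ₁ hs₁
        rw [this, ZMod.natCast_zmod_val]
      refine hram p ι hp τ₁ σ₁ hc₁ hτ₁ ?_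
      rw [hχ₁]
      exact mul_ne_zero (he j') hc0
  | one J π e hπ he hker hχ h4 =>
    refine kfin (hi := hi) hπ he hker hχ hψlc hψm ?_ ?_ ι₃ hthree (fun _ => h4 ι₃) g₁
    · intro p _ ι hp hnd τ σ hcmp hin'
      refine hzero _ (hin p ι hp τ σ hcmp hin' ?_)
      refine unr_kc (Finset.prod_ne_zero_iff.2 fun j _ => pow_ne_zero _ (hπ.p0 j)) hχ hp ι ?_
        hcmp hin'
      have h9 := norm_prod_one ι hnd 0 (fun j => (e j).val)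
      rwa [pow_zero, one_mul] at h9
    · intro j' p _ ι hp hsm
      obtain ⟨τ₁, σ₁, c₁, hc₁, hτ₁, hc0, hs₁⟩ := exists_ram (hi := hi) (hπ.pq j').prime hp ι hsm
      have split : ∏ i, π i ^ (e i).val =
          (∏ i ∈ Finset.univ.erase j', π i ^ (e i).val) * π j' ^ (e j').val := by
        rw [← Finset.mul_prod_erase Finset.univ (fun i => π i ^ (e i).val) (Finset.mem_univ j')]
        ring
      have hχ₁ : χ σ₁ = e j' * c₁ := by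
        have := ram_exp' (x := (e j').val) (hπ.pq j').prime
          (hπ.not_dvd_prod j' (fun j => (e j).val)) (by
            rw [← split]
            exact hχ) hp ι hsm hc₁ hτ₁ hs₁
        rw [this, ZMod.natCast_zmod_val]
      refine hram p ι hp τ₁ σ₁ hc₁ hτ₁ ?_
      rw [hχ₁]
      exact mul_ne_zero (he j') hc0
  | triv h =>
    refine kfin (J := Empty) (π := fun x => x.elim) (e := fun x => x.elim) (hi := hi)
      ⟨fun j => j.elim, fun i => i.elim⟩ (fun j => j.elim) (fun _ _ i => i.elim)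
      (χ := fun _ => 0) ?_ hψlc hψm ?_ ?_ ι₃ hthree ?_ g₁
    · rw [Finset.univ_eq_empty, Finset.prod_empty]
      exact kc_one
    · intro p _ ι hp _ τ σ hcmp hin'
      exact hzero _ (hin p ι hp τ σ hcmp hin' (h σ))
    · intro j
      exact j.elim
    · rintro ⟨j⟩
      exact j.elim

end Run7.h707.TH
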